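import Mathlib

open Complex Set Filter Topology

namespace Pool.Agent.Lib.MP_fcf965_nt

theorem summable_tail {δ : ℝ} (hδ : 0 < δ) :
    Summable (fun n : ℕ => 1 / ((n : ℝ) + 2) ^ (1 + δ)) := by
  have h := (summable_nat_add_iff 2).mpr (Real.summable_one_div_nat_rpow.mpr
    (show 1 < 1 + δ by linarith))
  refine h.congr fun n => ?_
  push_cast
  rfl

theorem tsum_tail_le {δ : ℝ} (hδ : 0 < δ) :
    ∑' n : ℕ, 1 / ((n : ℝ) + 2) ^ (1 + δ) ≤ 1 / δ := by
  have h := ZetaAsymptotics.termTSum_of_lt (s := 1 + δ) (by linarith)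
  have h0 : 0 ≤ ZetaAsymptotics.termTSum (1 + δ) :=
    tsum_nonneg fun n => ZetaAsymptotics.term_nonneg _ _
  have hs : Summable (fun n : ℕ => 1 / ((n : ℝ) + 1) ^ (1 + δ)) := by
    have h := (summable_nat_add_iff 1).mpr (Real.summable_one_div_nat_rpow.mpr
      (show 1 < 1 + δ by linarith))
    refine h.congr fun n => ?_
    push_cast
    rfl
  rw [hs.tsum_eq_zero_add] at h
  have e : ∀ n : ℕ, 1 / (((n + 1 : ℕ) : ℝ) + 1) ^ (1 + δ) = 1 / ((n : ℝ) + 2) ^ (1 + δ) := by
    intro n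
    push_cast
    congr 2
    ring
  simp only [e] at h
  rw [h] at h0
  simp only [Nat.cast_zero, zero_add, Real.one_rpow, add_sub_cancel_left] at h0
  set X := ∑' n : ℕ, 1 / ((n : ℝ) + 2) ^ (1 + δ)
  have h1 : (1 + δ) * (1 / δ - 1 / (1 + δ) * (1 / 1 + X)) = 1 / δ - X := by
    field_simp
    ring
  have h2 : 0 ≤ 1 / δ - X := by
    rw [← h1]; positivity
  linarith

theorem hasDerivAt_zeta_iter (k : ℕ) {s : ℂ} (hs : s ≠ 1) :
    HasDerivAt (iteratedDeriv k riemannZeta) (iteratedDeriv (k + 1) riemannZeta s) s := by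
  have hA : AnalyticOnNhd ℂ riemannZeta {1}ᶜ :=
    DifferentiableOn.analyticOnNhd
      (fun z hz => (differentiableAt_riemannZeta hz).differentiableWithinAt)
      isOpen_compl_singleton
  have h2 := hA.iterated_deriv k
  rw [iteratedDeriv_succ]
  have : DifferentiableAt ℂ (iteratedDeriv k riemannZeta) s := by
    rw [iteratedDeriv_eq_iterate]
    exact (h2 s hs).differentiableAt
  exact this.hasDerivAt

theorem logMul_iter (k n : ℕ) :
    (LSeries.logMul^[k] (1 : ℕ → ℂ)) n = (((Real.log n) ^ k : ℝ) : ℂ) := by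
  induction k with
  | zero => simp
  | succ k ih =>
    rw [Function.iterate_succ', Function.comp_apply]
    unfold LSeries.logMul
    rw [ih, pow_succ]
    push_cast
    ring

theorem summable_logpow (k : ℕ) {σ : ℝ} (hσ : 1 < σ) :
    Summable (fun n : ℕ => (Real.log n) ^ k / (n : ℝ) ^ σ) := by
  have h : LSeriesSummable (LSeries.logMul^[k] (1 : ℕ → ℂ)) (σ : ℂ) := by
    apply LSeriesSummable_of_abscissaOfAbsConv_lt_re
    rw [LSeries.absicssaOfAbsConv_logPowMul, LSeries.abscissaOfAbsConv_one]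
    simpa using (by exact_mod_cast hσ : (1 : EReal) < σ)
  have h' := h.norm
  refine h'.congr fun n => ?_
  rw [LSeries.norm_term_eq]
  split_ifs with hn
  · subst hn
    simp [Real.zero_rpow (by linarith : σ ≠ 0)]
  · rw [logMul_iter, Complex.norm_real, Real.norm_of_nonneg, Complex.ofReal_re]
    exact pow_nonneg (Real.log_natCast_nonneg n) k

theorem hasSum_zeta_deriv (k : ℕ) {s : ℂ} (hs : 1 < s.re) :
    HasSum (fun n : ℕ => (((Real.log n) ^ k : ℝ) : ℂ) * (n : ℂ) ^ (-s))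
      ((-1) ^ k * iteratedDeriv k riemannZeta s) := by
  have habs : LSeries.abscissaOfAbsConv (1 : ℕ → ℂ) < s.re := by
    rw [LSeries.abscissaOfAbsConv_one]
    exact_mod_cast hs
  have h1 : iteratedDeriv k riemannZeta s = iteratedDeriv k (LSeries 1) s := by
    apply Filter.EventuallyEq.iteratedDeriv_eq
    have : {z : ℂ | 1 < z.re} ∈ 𝓝 s := (isOpen_lt continuous_const continuous_re).mem_nhds hs
    filter_upwards [this] with z hz
    exact (LSeries_one_eq_riemannZeta hz).symm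
  have h2 : (-1) ^ k * iteratedDeriv k riemannZeta s = LSeries (LSeries.logMul^[k] 1) s := by
    rw [h1, LSeries_iteratedDeriv k habs, ← mul_assoc, ← mul_pow]
    simp
  rw [h2]
  have hsum : LSeriesSummable (LSeries.logMul^[k] (1 : ℕ → ℂ)) s := by
    apply LSeriesSummable_of_abscissaOfAbsConv_lt_re
    rw [LSeries.absicssaOfAbsConv_logPowMul]
    exact habs
  have h3 := hsum.LSeriesHasSum
  unfold LSeriesHasSum at h3
  have e : (fun n : ℕ => (((Real.log n) ^ k : ℝ) : ℂ) * (n : ℂ) ^ (-s)) =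
      LSeries.term (LSeries.logMul^[k] 1) s := by
    funext n
    by_cases hn : n = 0
    · subst hn
      have : -s ≠ 0 := by
        intro h
        have := congrArg Complex.re h
        simp at this
        linarith
      simp [Complex.zero_cpow this]
    · rw [LSeries.term_of_ne_zero hn, logMul_iter, Complex.cpow_neg, div_eq_mul_inv]
  rw [e]
  exact h3

/-- norm of the terms -/
theorem norm_term' (k n : ℕ) {s : ℂ} (hs : 1 < s.re) :
    ‖(((Real.log n) ^ k : ℝ) : ℂ) * (n : ℂ) ^ (-s)‖ = (Real.log n) ^ k / (n : ℝ) ^ s.re := by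
  by_cases hn : n = 0
  · subst hn
    have h1 : -s ≠ 0 := by
      intro h
      have := congrArg Complex.re h
      simp at this
      linarith
    simp [Complex.zero_cpow h1, Real.zero_rpow (by linarith : s.re ≠ 0)]
  · rw [norm_mul, Complex.norm_real, Real.norm_of_nonneg (pow_nonneg (Real.log_natCast_nonneg n) k),
      Complex.norm_natCast_cpow_of_pos (Nat.pos_of_ne_zero hn), Complex.neg_re,
      Real.rpow_neg (Nat.cast_nonneg n), div_eq_mul_inv]

/-- Bound for the majorant. -/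
theorem tsum_logpow_le {k : ℕ} (hk : 1 ≤ k) {y : ℝ} (hy : 0 < y) :
    ∑' n : ℕ, (Real.log n) ^ k / (n : ℝ) ^ (1 + y) ≤
      Real.exp 1 * (k + 1).factorial / y ^ (k + 1) := by
  have hs := summable_logpow k (show 1 < 1 + y by linarith)
  have e1 : ∑' n : ℕ, (Real.log n) ^ k / (n : ℝ) ^ (1 + y) =
      ∑' n : ℕ, (Real.log ((n + 2 : ℕ) : ℝ)) ^ k / ((n + 2 : ℕ) : ℝ) ^ (1 + y) := by
    rw [← hs.sum_add_tsum_nat_add 2]
    simp [Finset.sum_range_succ, zero_pow (by omega : k ≠ 0)]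
  rw [e1]
  have hkpos : (0 : ℝ) < k := by exact_mod_cast hk
  set θ : ℝ := k / (k + 1) with hθ
  have hθpos : 0 < θ := by positivity
  have hθ1 : 1 - θ = 1 / (k + 1) := by rw [hθ]; field_simp; ring
  have hδ : 0 < (1 - θ) * y := by rw [hθ1]; positivity
  have hterm : ∀ n : ℕ, (Real.log ((n + 2 : ℕ) : ℝ)) ^ k / ((n + 2 : ℕ) : ℝ) ^ (1 + y) ≤
      ((k.factorial : ℝ) / (θ * y) ^ k) * (1 / ((n : ℝ) + 2) ^ (1 + (1 - θ) * y)) := by
    intro n
    have hn : (0 : ℝ) < (n : ℝ) + 2 := by positivity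
    push_cast
    set L := Real.log ((n : ℝ) + 2) with hL
    have hLpos : 0 ≤ L := Real.log_nonneg (by linarith)
    have h1 := Real.pow_div_factorial_le_exp (x := θ * y * L) (by positivity) k
    have h2 : Real.exp (θ * y * L) = ((n : ℝ) + 2) ^ (θ * y) := by
      rw [Real.rpow_def_of_pos hn, mul_comm]
    rw [h2, mul_pow, div_le_iff₀ (by positivity)] at h1
    have h3 : L ^ k ≤ (k.factorial : ℝ) / (θ * y) ^ k * ((n : ℝ) + 2) ^ (θ * y) := by
      rw [div_mul_eq_mul_div, le_div_iff₀ (by positivity)]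
      linarith
    have h4 : ((n : ℝ) + 2) ^ (1 + y) =
        ((n : ℝ) + 2) ^ (θ * y) * ((n : ℝ) + 2) ^ (1 + (1 - θ) * y) := by
      rw [← Real.rpow_add hn]; congr 1; ring
    rw [h4, div_le_iff₀ (by positivity)]
    calc L ^ k ≤ (k.factorial : ℝ) / (θ * y) ^ k * ((n : ℝ) + 2) ^ (θ * y) := h3
      _ = _ := by field_simp
  have hsum2 := (summable_tail hδ).mul_left ((k.factorial : ℝ) / (θ * y) ^ k)
  have hs1 : Summable (fun n : ℕ =>
      (Real.log ((n + 2 : ℕ) : ℝ)) ^ k / ((n + 2 : ℕ) : ℝ) ^ (1 + y)) :=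
    (summable_nat_add_iff 2).mpr hs
  calc ∑' n : ℕ, (Real.log ((n + 2 : ℕ) : ℝ)) ^ k / ((n + 2 : ℕ) : ℝ) ^ (1 + y)
      ≤ ∑' n : ℕ, ((k.factorial : ℝ) / (θ * y) ^ k) * (1 / ((n : ℝ) + 2) ^ (1 + (1 - θ) * y)) :=
        hs1.tsum_le_tsum hterm hsum2
    _ = ((k.factorial : ℝ) / (θ * y) ^ k) * ∑' n : ℕ, (1 / ((n : ℝ) + 2) ^ (1 + (1 - θ) * y)) :=
        tsum_mul_left
    _ ≤ ((k.factorial : ℝ) / (θ * y) ^ k) * (1 / ((1 - θ) * y)) := by
        gcongr
        exact tsum_tail_le hδ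
    _ = (((k + 1) / k : ℝ)) ^ k * ((k + 1) * k.factorial) / y ^ (k + 1) := by
        rw [hθ1, hθ, mul_pow, div_pow, div_pow, pow_succ y k]
        field_simp
    _ ≤ Real.exp 1 * (k + 1).factorial / y ^ (k + 1) := by
        have h5 : (((k + 1) / k : ℝ)) ^ k ≤ Real.exp 1 := by
          have : ((k : ℝ) + 1) / k ≤ Real.exp (1 / k) := by
            have := Real.add_one_le_exp (1 / (k : ℝ))
            calc ((k : ℝ) + 1) / k = 1 / k + 1 := by field_simp; ring
              _ ≤ _ := this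
          calc (((k + 1) / k : ℝ)) ^ k ≤ (Real.exp (1 / k)) ^ k := by gcongr
            _ = Real.exp 1 := by
              rw [← Real.exp_nat_mul]; congr 1; field_simp
        rw [Nat.factorial_succ]
        push_cast
        gcongr

theorem norm_zeta_deriv_le {k : ℕ} (hk : 1 ≤ k) {s : ℂ} (hs : 1 < s.re) :
    ‖iteratedDeriv k riemannZeta s‖ ≤
      Real.exp 1 * (k + 1).factorial / (s.re - 1) ^ (k + 1) := by
  have h := hasSum_zeta_deriv k hs
  have h1 : ‖iteratedDeriv k riemannZeta s‖ = ‖(-1) ^ k * iteratedDeriv k riemannZeta s‖ := by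
    simp
  rw [h1, ← h.tsum_eq]
  have hsn : Summable (fun n : ℕ => ‖(((Real.log n) ^ k : ℝ) : ℂ) * (n : ℂ) ^ (-s)‖) := by
    simp only [norm_term' k _ hs]
    exact summable_logpow k hs
  calc ‖∑' n : ℕ, (((Real.log n) ^ k : ℝ) : ℂ) * (n : ℂ) ^ (-s)‖
      ≤ ∑' n : ℕ, ‖(((Real.log n) ^ k : ℝ) : ℂ) * (n : ℂ) ^ (-s)‖ := norm_tsum_le_tsum_norm hsn
    _ = ∑' n : ℕ, (Real.log n) ^ k / (n : ℝ) ^ (1 + (s.re - 1)) := by
        simp only [norm_term' k _ hs]
        congr 2
        funext n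
        congr 2
        ring
    _ ≤ _ := tsum_logpow_le hk (by linarith)

end Pool.Agent.Lib.MP_fcf965_nt
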