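import Mathlib
import Pool.Agent.Lib.MP_fcf965_nt.Dir

open Complex Set Filter Topology MeasureTheory

namespace Pool.Agent.Lib.MP_fcf965_nt

/-- the oscillating exponential -/
noncomputable def ex (w t : ℝ) : ℂ := Complex.exp (((w * t : ℝ) : ℂ) * I)

theorem norm_ex (w t : ℝ) : ‖ex w t‖ = 1 := Complex.norm_exp_ofReal_mul_I _

theorem continuous_ex (w : ℝ) : Continuous (ex w) := by
  unfold ex; fun_prop

theorem ex_zero (t : ℝ) : ex 0 t = 1 := by simp [ex]

theorem ex_add (w v t : ℝ) : ex w t * ex v t = ex (w + v) t := by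
  unfold ex
  rw [← Complex.exp_add]
  congr 1
  push_cast
  ring

theorem conj_ex (w t : ℝ) : (starRingEnd ℂ) (ex w t) = ex (-w) t := by
  unfold ex
  rw [← Complex.exp_conj]
  congr 1
  simp

theorem osc_bound {w : ℝ} (hw : w ≠ 0) (a b : ℝ) : ‖∫ t in a..b, ex w t‖ ≤ 2 / |w| := by
  have hc : (w : ℂ) * I ≠ 0 := mul_ne_zero (by exact_mod_cast hw) I_ne_zero
  have h : ∀ t : ℝ, ex w t = Complex.exp ((w * I) * t) := by
    intro t; unfold ex; congr 1; push_cast; ring
  simp_rw [h]
  rw [integral_exp_mul_complex hc, norm_div]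
  have h1 : ‖(w : ℂ) * I‖ = |w| := by
    rw [norm_mul, Complex.norm_real, Complex.norm_I, mul_one, Real.norm_eq_abs]
  rw [h1]
  gcongr
  rw [← h, ← h]
  calc ‖ex w b - ex w a‖ ≤ ‖ex w b‖ + ‖ex w a‖ := norm_sub_le _ _
    _ = 2 := by rw [norm_ex, norm_ex]; norm_num

theorem log_gap {n m : ℕ} (hn : 1 ≤ n) (hm : 1 ≤ m) (hne : n ≠ m) :
    1 / ((n : ℝ) + 1) ≤ |Real.log n - Real.log m| := by
  have hn' : (0 : ℝ) < n := by exact_mod_cast hn
  have hm' : (0 : ℝ) < m := by exact_mod_cast hm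
  rcases lt_or_gt_of_ne hne with h | h
  · -- n < m
    have h1 : (n : ℝ) + 1 ≤ m := by exact_mod_cast h
    have h2 : 1 - ((m : ℝ) / n)⁻¹ ≤ Real.log ((m : ℝ) / n) :=
      Real.one_sub_inv_le_log_of_pos (by positivity)
    rw [Real.log_div hm'.ne' hn'.ne', inv_div] at h2
    rw [abs_sub_comm]
    refine le_trans ?_ (le_abs_self _)
    refine le_trans ?_ h2
    have h3 : (n : ℝ) / m ≤ n / (n + 1) := by gcongr
    have h4 : 1 - (n : ℝ) / (n + 1) = 1 / (n + 1) := by field_simp; ring
    linarith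
  · have h1 : (m : ℝ) + 1 ≤ n := by exact_mod_cast h
    have h2 : 1 - ((n : ℝ) / m)⁻¹ ≤ Real.log ((n : ℝ) / m) :=
      Real.one_sub_inv_le_log_of_pos (by positivity)
    rw [Real.log_div hn'.ne' hm'.ne', inv_div] at h2
    refine le_trans ?_ (le_abs_self _)
    refine le_trans ?_ h2
    have h3 : (m : ℝ) / n ≤ (n - 1) / n := by gcongr; linarith
    have h4 : 1 - ((n : ℝ) - 1) / n = 1 / n := by field_simp; ring
    have h5 : 1 / ((n : ℝ) + 1) ≤ 1 / n := by gcongr; linarith
    linarith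

theorem osc_bound' {n m : ℕ} (hn : 1 ≤ n) (hm : 1 ≤ m) (hne : n ≠ m) (a b : ℝ) :
    ‖∫ t in a..b, ex (Real.log n - Real.log m) t‖ ≤ 2 * ((n : ℝ) + 1) := by
  have h1 := log_gap hn hm hne
  have h0 : (0 : ℝ) < 1 / ((n : ℝ) + 1) := by positivity
  have hne' : Real.log n - Real.log m ≠ 0 := by
    intro h
    rw [h, abs_zero] at h1
    linarith
  refine (osc_bound hne' a b).trans ?_
  rw [div_le_iff₀ (lt_of_lt_of_le h0 h1)]
  calc (2 : ℝ) = 2 * ((n : ℝ) + 1) * (1 / ((n : ℝ) + 1)) := by field_simp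
    _ ≤ 2 * ((n : ℝ) + 1) * |Real.log n - Real.log m| := by gcongr

/-- coefficients -/
noncomputable def coef (l : ℕ) (x : ℝ) (m : ℕ) : ℝ := (Real.log m) ^ l / (m : ℝ) ^ (1 + x)

theorem coef_nonneg (l : ℕ) (x : ℝ) (m : ℕ) : 0 ≤ coef l x m := by
  unfold coef
  have := pow_nonneg (Real.log_natCast_nonneg m) l
  positivity

theorem term_eq (l : ℕ) {x : ℝ} (hx : 0 < x) (m : ℕ) (t : ℝ) :
    (((Real.log m) ^ l : ℝ) : ℂ) * (m : ℂ) ^ (-((1 : ℂ) + x + t * I)) =
      (coef l x m : ℂ) * ex (-Real.log m) t := by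
  by_cases hm : m = 0
  · subst hm
    have h1 : -((1 : ℂ) + x + t * I) ≠ 0 := by
      intro h
      have := congrArg Complex.re h
      simp at this
      linarith
    simp only [Nat.cast_zero, coef]
    rw [Complex.zero_cpow h1, Real.zero_rpow (by linarith : 1 + x ≠ 0)]
    simp
  · have hm' : (0 : ℝ) < m := by exact_mod_cast Nat.pos_of_ne_zero hm
    have h2 : (m : ℂ) ≠ 0 := by exact_mod_cast hm
    have h3 : (m : ℂ) ^ (-((1 : ℂ) + x + t * I)) =
        (((m : ℝ) ^ (1 + x))⁻¹ : ℝ) * ex (-Real.log m) t := by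
      rw [← Real.rpow_neg hm'.le, Real.rpow_def_of_pos hm', Complex.ofReal_exp]
      unfold ex
      rw [← Complex.exp_add, Complex.cpow_def_of_ne_zero h2, ← Complex.natCast_log]
      congr 1
      push_cast
      ring
    rw [h3, coef, div_eq_mul_inv]
    push_cast
    ring

theorem coef_summable (l : ℕ) {x : ℝ} (hx : 0 < x) : Summable (coef l x) :=
  summable_logpow l (by linarith)

theorem hasSum_f (l : ℕ) {x : ℝ} (hx : 0 < x) (t : ℝ) :
    HasSum (fun m : ℕ => (coef l x m : ℂ) * ex (-Real.log m) t)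
      ((-1) ^ l * iteratedDeriv l riemannZeta (1 + x + t * I)) := by
  have h := hasSum_zeta_deriv l (s := (1 : ℂ) + x + t * I) (by simp; exact hx)
  simpa only [term_eq l hx] using h

theorem int_f (l : ℕ) {x : ℝ} (hx : 0 < x) {n : ℕ} (hn : 1 ≤ n) {a b : ℝ} (hab : a ≤ b) :
    ‖(∫ t in a..b, ((-1) ^ l * iteratedDeriv l riemannZeta (1 + x + t * I)) *
      ex (Real.log n) t) - (coef l x n * (b - a) : ℝ)‖ ≤
      2 * ((n : ℝ) + 1) * ∑' m, coef l x m := by
  have hsum : HasSum (fun m : ℕ => ∫ t in a..b, (coef l x m : ℂ) * ex (Real.log n - Real.log m) t)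
      (∫ t in a..b, ((-1) ^ l * iteratedDeriv l riemannZeta (1 + x + t * I)) *
      ex (Real.log n) t) := by
    refine intervalIntegral.hasSum_integral_of_dominated_convergence
      (fun m _ => coef l x m) ?_ ?_ ?_ ?_ ?_
    · intro m
      exact (continuous_const.mul (continuous_ex _)).aestronglyMeasurable
    · intro m
      refine Eventually.of_forall fun t _ => ?_
      rw [norm_mul, norm_ex, mul_one, Complex.norm_real, Real.norm_of_nonneg (coef_nonneg _ _ _)]
    · exact Eventually.of_forall fun t _ => coef_summable l hx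
    · exact intervalIntegrable_const
    · refine Eventually.of_forall fun t _ => ?_
      have h := (hasSum_f l hx t).mul_right (ex (Real.log n) t)
      have e : (fun m : ℕ => (coef l x m : ℂ) * ex (-Real.log m) t * ex (Real.log n) t) =
          fun m : ℕ => (coef l x m : ℂ) * ex (Real.log n - Real.log m) t := by
        funext m
        rw [mul_assoc, ex_add]
        congr 2
        ring
      rw [e] at h
      exact h
  have hsub := hsum.sub (hasSum_ite_eq n ((coef l x n * (b - a) : ℝ) : ℂ))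
  have hbd : ∀ m : ℕ, ‖(∫ t in a..b, (coef l x m : ℂ) * ex (Real.log n - Real.log m) t) -
      (if m = n then ((coef l x n * (b - a) : ℝ) : ℂ) else 0)‖ ≤
      2 * ((n : ℝ) + 1) * coef l x m := by
    intro m
    rw [intervalIntegral.integral_const_mul]
    by_cases hmn : m = n
    · subst hmn
      simp only [sub_self, if_true, ex_zero]
      rw [intervalIntegral.integral_const]
      simp only [Complex.real_smul, mul_one]
      push_cast
      rw [sub_self, norm_zero]
      have := coef_nonneg l x m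
      positivity
    · rw [if_neg hmn, sub_zero, norm_mul, Complex.norm_real,
        Real.norm_of_nonneg (coef_nonneg _ _ _)]
      by_cases hm0 : m = 0
      · subst hm0
        have : coef l x 0 = 0 := by
          simp [coef, Real.zero_rpow (by linarith : 1 + x ≠ 0)]
        rw [this]; simp
      · rw [mul_comm]
        gcongr
        · exact coef_nonneg _ _ _
        · exact osc_bound' hn (Nat.pos_of_ne_zero hm0) (Ne.symm hmn) a b
  rw [← hsub.tsum_eq, ← tsum_mul_left]
  have hs2 : Summable (fun m => 2 * ((n : ℝ) + 1) * coef l x m) :=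
    (coef_summable l hx).mul_left _
  exact tsum_of_norm_bounded hs2.hasSum hbd

/-- the test polynomial -/
noncomputable def Rp (s : Finset ℕ) (t : ℝ) : ℂ := ∑ n ∈ s, ex (Real.log n) t

theorem continuous_Rp (s : Finset ℕ) : Continuous (Rp s) := by
  unfold Rp
  exact continuous_finsetSum _ fun n _ => continuous_ex _

theorem int_Rp_sq {N : ℕ} (hN : 1 ≤ N) {a b : ℝ} (hab : a ≤ b) :
    ∫ t in a..b, ‖Rp (Finset.Ioc N (2 * N)) t‖ ^ 2 ≤
      N * (b - a) + (N : ℝ) ^ 2 * (2 * (2 * (N : ℝ) + 1)) := by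
  set s := Finset.Ioc N (2 * N) with hs
  have hcard : s.card = N := by rw [hs, Nat.card_Ioc]; omega
  have h1 : ∀ t, ((‖Rp s t‖ ^ 2 : ℝ) : ℂ) = ∑ n ∈ s, ∑ m ∈ s, ex (Real.log n - Real.log m) t := by
    intro t
    have h2 : ((‖Rp s t‖ ^ 2 : ℝ) : ℂ) = Rp s t * (starRingEnd ℂ) (Rp s t) := by
      rw [Complex.mul_conj, Complex.normSq_eq_norm_sq]
    rw [h2, Rp, map_sum, Finset.sum_mul_sum]
    refine Finset.sum_congr rfl fun n _ => Finset.sum_congr rfl fun m _ => ?_
    rw [conj_ex, ex_add, sub_eq_add_neg]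
  have h3 : ((∫ t in a..b, ‖Rp s t‖ ^ 2 : ℝ) : ℂ) =
      ∑ n ∈ s, ∑ m ∈ s, ∫ t in a..b, ex (Real.log n - Real.log m) t := by
    rw [← intervalIntegral.integral_ofReal]
    simp_rw [h1]
    rw [intervalIntegral.integral_finsetSum]
    · refine Finset.sum_congr rfl fun n _ => ?_
      rw [intervalIntegral.integral_finsetSum]
      intro m _
      exact (continuous_ex _).intervalIntegrable _ _
    · intro n _
      exact (continuous_finsetSum _ fun m _ => continuous_ex _).intervalIntegrable _ _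
  have h4 : ∫ t in a..b, ‖Rp s t‖ ^ 2 ≤ ‖((∫ t in a..b, ‖Rp s t‖ ^ 2 : ℝ) : ℂ)‖ := by
    rw [Complex.norm_real]; exact le_abs_self _
  refine h4.trans ?_
  rw [h3]
  calc ‖∑ n ∈ s, ∑ m ∈ s, ∫ t in a..b, ex (Real.log n - Real.log m) t‖
      ≤ ∑ n ∈ s, ∑ m ∈ s, ‖∫ t in a..b, ex (Real.log n - Real.log m) t‖ := by
        refine (norm_sum_le _ _).trans (Finset.sum_le_sum fun n _ => norm_sum_le _ _)
    _ ≤ ∑ n ∈ s, ∑ m ∈ s, ((if n = m then (b - a) else 0) + 2 * (2 * (N : ℝ) + 1)) := by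
        refine Finset.sum_le_sum fun n hn => Finset.sum_le_sum fun m hm => ?_
        rw [hs, Finset.mem_Ioc] at hn hm
        by_cases hnm : n = m
        · subst hnm
          simp only [sub_self, if_true, ex_zero]
          rw [intervalIntegral.integral_const]
          simp only [Complex.real_smul, mul_one]
          rw [Complex.norm_real, Real.norm_of_nonneg (by linarith)]
          have : (0 : ℝ) ≤ 2 * (2 * (N : ℝ) + 1) := by positivity
          linarith
        · rw [if_neg hnm, zero_add]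
          refine (osc_bound' (by omega) (by omega) hnm a b).trans ?_
          have : (n : ℝ) ≤ 2 * N := by exact_mod_cast hn.2
          linarith
    _ = N * (b - a) + (N : ℝ) ^ 2 * (2 * (2 * (N : ℝ) + 1)) := by
        simp only [Finset.sum_add_distrib, Finset.sum_ite_eq, Finset.sum_const, hcard,
          nsmul_eq_mul]
        rw [Finset.sum_ite_mem]
        simp only [Finset.inter_self, Finset.sum_const, hcard, nsmul_eq_mul]
        ring

theorem int_Rp {N : ℕ} (hN : 1 ≤ N) {a b lam : ℝ} (hab : a ≤ b) (hlam : 0 < lam) :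
    ∫ t in a..b, ‖Rp (Finset.Ioc N (2 * N)) t‖ ≤
      (lam * (b - a) + (N * (b - a) + (N : ℝ) ^ 2 * (2 * (2 * (N : ℝ) + 1))) / lam) / 2 := by
  set s := Finset.Ioc N (2 * N) with hs
  have h1 : ∀ t, ‖Rp s t‖ ≤ (lam + ‖Rp s t‖ ^ 2 / lam) / 2 := by
    intro t
    have : 0 ≤ (lam - ‖Rp s t‖) ^ 2 := sq_nonneg _
    rw [le_div_iff₀ (by norm_num), ← sub_nonneg]
    have h2 : lam + ‖Rp s t‖ ^ 2 / lam - ‖Rp s t‖ * 2 = (lam - ‖Rp s t‖) ^ 2 / lam := by
      field_simp
      ring
    rw [h2]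
    positivity
  have hc := continuous_Rp s
  calc ∫ t in a..b, ‖Rp s t‖ ≤ ∫ t in a..b, (lam + ‖Rp s t‖ ^ 2 / lam) / 2 := by
        apply intervalIntegral.integral_mono_on hab
        · exact hc.norm.intervalIntegrable _ _
        · exact (by fun_prop : Continuous fun t => (lam + ‖Rp s t‖ ^ 2 / lam) / 2).intervalIntegrable _ _
        · intro t _; exact h1 t
    _ = (lam * (b - a) + (∫ t in a..b, ‖Rp s t‖ ^ 2) / lam) / 2 := by
        rw [intervalIntegral.integral_div, intervalIntegral.integral_add,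
          intervalIntegral.integral_div, intervalIntegral.integral_const]
        · simp only [smul_eq_mul]; ring
        · exact intervalIntegrable_const
        · exact (by fun_prop : Continuous fun t => ‖Rp s t‖ ^ 2 / lam).intervalIntegrable _ _
    _ ≤ _ := by
        have := int_Rp_sq hN hab
        gcongr

/-- the duality inequality -/
theorem duality {l : ℕ} {x : ℝ} (hx : 0 < x) {N : ℕ} (hN : 1 ≤ N) {a b lam S : ℝ} (ha : 0 < a)
    (hab : a ≤ b) (hlam : 0 < lam)
    (hS : ∀ t : ℝ, a ≤ t → t ≤ b → ‖iteratedDeriv l riemannZeta (1 + x + t * I)‖ ≤ S) :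
    (∑ n ∈ Finset.Ioc N (2 * N), coef l x n) * (b - a) -
      N * (2 * (2 * (N : ℝ) + 1)) * ∑' m, coef l x m ≤
      S * ((lam * (b - a) + (N * (b - a) + (N : ℝ) ^ 2 * (2 * (2 * (N : ℝ) + 1))) / lam) / 2) := by
  set s := Finset.Ioc N (2 * N) with hs
  have hcard : s.card = N := by rw [hs, Nat.card_Ioc]; omega
  set A := ∑' m, coef l x m with hA
  have hA0 : 0 ≤ A := tsum_nonneg fun m => coef_nonneg _ _ _
  set f : ℝ → ℂ := fun t => (-1) ^ l * iteratedDeriv l riemannZeta (1 + x + t * I) with hf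
  have hcont : ContinuousOn f (uIcc a b) := by
    intro t ht
    rw [uIcc_of_le hab] at ht
    have hne : (1 : ℂ) + x + t * I ≠ 1 := by
      intro h
      have := congrArg Complex.re h
      simp at this
      linarith
    have h1 := (hasDerivAt_zeta_iter l hne).continuousAt
    have h2 : ContinuousAt (fun t : ℝ => (1 : ℂ) + x + t * I) t := by fun_prop
    have h3 : ContinuousAt (fun t : ℝ => iteratedDeriv l riemannZeta (1 + x + t * I)) t :=
      ContinuousAt.comp (f := fun t : ℝ => (1 : ℂ) + x + t * I) h1 h2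
    exact (h3.const_mul _).continuousWithinAt
  have hS0 : 0 ≤ S := (norm_nonneg _).trans (hS a le_rfl hab)
  have hfS : ∀ t, a ≤ t → t ≤ b → ‖f t‖ ≤ S := by
    intro t h1 h2
    have := hS t h1 h2
    simpa [hf] using this
  -- upper bound
  have hup : ‖∫ t in a..b, f t * Rp s t‖ ≤ S * ∫ t in a..b, ‖Rp s t‖ := by
    rw [← intervalIntegral.integral_const_mul]
    refine intervalIntegral.norm_integral_le_of_norm_le hab ?_ ?_
    · refine Eventually.of_forall fun t ht => ?_
      rw [norm_mul]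
      gcongr
      exact hfS t ht.1.le ht.2
    · exact ((continuous_Rp s).norm.const_mul S |> fun h => h.intervalIntegrable _ _)
  -- lower bound
  have hlow : ‖(∫ t in a..b, f t * Rp s t) - ((∑ n ∈ s, coef l x n) * (b - a) : ℝ)‖ ≤
      N * (2 * (2 * (N : ℝ) + 1)) * A := by
    have h1 : ∫ t in a..b, f t * Rp s t = ∑ n ∈ s, ∫ t in a..b, f t * ex (Real.log n) t := by
      simp_rw [Rp, Finset.mul_sum]
      rw [intervalIntegral.integral_finsetSum]
      intro n _
      exact (hcont.mul (continuous_ex _).continuousOn).intervalIntegrable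
    have h2 : (((∑ n ∈ s, coef l x n) * (b - a) : ℝ) : ℂ) =
        ∑ n ∈ s, ((coef l x n * (b - a) : ℝ) : ℂ) := by
      rw [Finset.sum_mul]; push_cast; rfl
    rw [h1, h2, ← Finset.sum_sub_distrib]
    calc ‖∑ n ∈ s, ((∫ t in a..b, f t * ex (Real.log n) t) - ((coef l x n * (b - a) : ℝ) : ℂ))‖
        ≤ ∑ n ∈ s, ‖(∫ t in a..b, f t * ex (Real.log n) t) - ((coef l x n * (b - a) : ℝ) : ℂ)‖ :=
          norm_sum_le _ _
      _ ≤ ∑ n ∈ s, (2 * (2 * (N : ℝ) + 1)) * A := by
          refine Finset.sum_le_sum fun n hn => ?_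
          rw [hs, Finset.mem_Ioc] at hn
          refine (int_f l hx (by omega : 1 ≤ n) hab).trans ?_
          have : (n : ℝ) ≤ 2 * N := by exact_mod_cast hn.2
          gcongr
      _ = N * (2 * (2 * (N : ℝ) + 1)) * A := by
          rw [Finset.sum_const, hcard, nsmul_eq_mul]; ring
  have hsumnn : 0 ≤ (∑ n ∈ s, coef l x n) * (b - a) :=
    mul_nonneg (Finset.sum_nonneg fun n _ => coef_nonneg _ _ _) (by linarith)
  have htri : (∑ n ∈ s, coef l x n) * (b - a) ≤
      ‖∫ t in a..b, f t * Rp s t‖ + N * (2 * (2 * (N : ℝ) + 1)) * A := by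
    calc (∑ n ∈ s, coef l x n) * (b - a) = ‖(((∑ n ∈ s, coef l x n) * (b - a) : ℝ) : ℂ)‖ := by
          rw [Complex.norm_real, Real.norm_of_nonneg hsumnn]
      _ = ‖(∫ t in a..b, f t * Rp s t) - ((∫ t in a..b, f t * Rp s t) -
          ((∑ n ∈ s, coef l x n) * (b - a) : ℝ))‖ := by congr 1; ring
      _ ≤ ‖∫ t in a..b, f t * Rp s t‖ + ‖(∫ t in a..b, f t * Rp s t) -
          ((∑ n ∈ s, coef l x n) * (b - a) : ℝ)‖ := norm_sub_le _ _
      _ ≤ _ := by gcongr
  have hR := int_Rp hN hab hlam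
  calc (∑ n ∈ s, coef l x n) * (b - a) - N * (2 * (2 * (N : ℝ) + 1)) * A
      ≤ ‖∫ t in a..b, f t * Rp s t‖ := by linarith
    _ ≤ S * ∫ t in a..b, ‖Rp s t‖ := hup
    _ ≤ _ := by gcongr

end Pool.Agent.Lib.MP_fcf965_nt
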