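import Mathlib

open Complex Set Filter Topology

namespace Pool.Agent.Lib.MP_fcf965_nt

/-- Maximum principle on a closed rectangle with one exceptional corner. -/
theorem rect_max {Φ : ℂ → ℂ} {Y R M : ℝ}
    (hd : ∀ z : ℂ, 0 ≤ z.re → z.re ≤ Y → 0 ≤ z.im → z.im ≤ R → z ≠ 0 → DifferentiableAt ℂ Φ z)
    (hleft : ∀ z : ℂ, z.re = 0 → 0 ≤ z.im → z.im ≤ R → z ≠ 0 → ‖Φ z‖ ≤ M)
    (hbot : ∀ z : ℂ, z.im = 0 → 0 ≤ z.re → z.re ≤ Y → z ≠ 0 → ‖Φ z‖ ≤ M)
    (hright : ∀ z : ℂ, z.re = Y → 0 ≤ z.im → z.im ≤ R → z ≠ 0 → ‖Φ z‖ ≤ M)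
    (htop : ∀ z : ℂ, z.im = R → 0 ≤ z.re → z.re ≤ Y → z ≠ 0 → ‖Φ z‖ ≤ M)
    (h0 : ∀ ε > 0, ∃ ρ > 0, ∀ z : ℂ, 0 ≤ z.re → 0 ≤ z.im → z ≠ 0 → ‖z‖ ≤ ρ → ‖Φ z‖ ≤ M + ε) :
    ∀ z : ℂ, 0 < z.re → z.re < Y → 0 < z.im → z.im < R → ‖Φ z‖ ≤ M := by
  intro z hz1 hz2 hz3 hz4
  refine le_of_forall_pos_le_add fun ε hε => ?_
  obtain ⟨ρ, hρ, hρ'⟩ := h0 ε hε
  have hz0 : z ≠ 0 := by
    intro h; simp [h] at hz1
  have hzn : 0 < ‖z‖ := norm_pos_iff.mpr hz0
  set r := min ρ (‖z‖ / 2) with hr
  have hrpos : 0 < r := lt_min hρ (by positivity)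
  set U : Set ℂ := {w | 0 < w.re ∧ w.re < Y ∧ 0 < w.im ∧ w.im < R ∧ r < ‖w‖} with hU
  have hUopen : IsOpen U := by
    have e : U = {w : ℂ | 0 < w.re} ∩ ({w : ℂ | w.re < Y} ∩ ({w : ℂ | 0 < w.im} ∩
      ({w : ℂ | w.im < R} ∩ {w : ℂ | r < ‖w‖}))) := by
      ext w; simp [hU]
    rw [e]
    refine (isOpen_lt continuous_const continuous_re).inter
      ((isOpen_lt continuous_re continuous_const).inter
      ((isOpen_lt continuous_const continuous_im).inter
      ((isOpen_lt continuous_im continuous_const).inter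
      (isOpen_lt continuous_const continuous_norm))))
  have hUcl : closure U ⊆ {w | 0 ≤ w.re ∧ w.re ≤ Y ∧ 0 ≤ w.im ∧ w.im ≤ R ∧ r ≤ ‖w‖} := by
    apply closure_minimal
    · rintro w ⟨a, b, c, d, e⟩
      exact ⟨a.le, b.le, c.le, d.le, e.le⟩
    · have e : {w : ℂ | 0 ≤ w.re ∧ w.re ≤ Y ∧ 0 ≤ w.im ∧ w.im ≤ R ∧ r ≤ ‖w‖}
        = {w : ℂ | 0 ≤ w.re} ∩ ({w : ℂ | w.re ≤ Y} ∩ ({w : ℂ | 0 ≤ w.im} ∩
        ({w : ℂ | w.im ≤ R} ∩ {w : ℂ | r ≤ ‖w‖}))) := by
        ext w; simp
      rw [e]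
      refine (isClosed_le continuous_const continuous_re).inter
        ((isClosed_le continuous_re continuous_const).inter
        ((isClosed_le continuous_const continuous_im).inter
        ((isClosed_le continuous_im continuous_const).inter
        (isClosed_le continuous_const continuous_norm))))
  have hUb : Bornology.IsBounded U := by
    refine (Metric.isBounded_closedBall (x := (0:ℂ)) (r := |Y| + |R|)).subset ?_
    rintro w ⟨a, b, c, d, _⟩
    simp only [Metric.mem_closedBall, dist_zero_right]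
    calc ‖w‖ ≤ |w.re| + |w.im| := Complex.norm_le_abs_re_add_abs_im w
      _ ≤ |Y| + |R| := by
        rw [abs_of_pos a, abs_of_pos c]
        exact add_le_add (b.le.trans (le_abs_self _)) (d.le.trans (le_abs_self _))
  have hne : ∀ w ∈ closure U, w ≠ 0 := by
    intro w hw h
    have := (hUcl hw).2.2.2.2
    rw [h] at this; simp at this; linarith
  have hdc : DiffContOnCl ℂ Φ U := by
    constructor
    · intro w hw
      have h1 := hUcl (subset_closure hw)
      exact (hd w h1.1 h1.2.1 h1.2.2.1 h1.2.2.2.1 (hne w (subset_closure hw))).differentiableWithinAt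
    · intro w hw
      have h1 := hUcl hw
      exact (hd w h1.1 h1.2.1 h1.2.2.1 h1.2.2.2.1 (hne w hw)).continuousAt.continuousWithinAt
  have hzU : z ∈ U := by
    refine ⟨hz1, hz2, hz3, hz4, ?_⟩
    calc r ≤ ‖z‖ / 2 := min_le_right _ _
      _ < ‖z‖ := by linarith
  refine Complex.norm_le_of_forall_mem_frontier_norm_le hUb hdc ?_ (subset_closure hzU)
  intro w hw
  rw [hUopen.frontier_eq] at hw
  obtain ⟨hwc, hwU⟩ := hw
  have h1 := hUcl hwc
  have hw0 := hne w hwc
  obtain ⟨a1, a2, a3, a4, a5⟩ := h1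
  by_cases b1 : w.re = 0
  · exact (hleft w b1 a3 a4 hw0).trans (by linarith)
  by_cases b2 : w.re = Y
  · exact (hright w b2 a3 a4 hw0).trans (by linarith)
  by_cases b3 : w.im = 0
  · exact (hbot w b3 a1 a2 hw0).trans (by linarith)
  by_cases b4 : w.im = R
  · exact (htop w b4 a1 a2 hw0).trans (by linarith)
  have b5 : ‖w‖ ≤ r := by
    by_contra h
    push Not at h
    exact hwU ⟨lt_of_le_of_ne a1 (Ne.symm b1), lt_of_le_of_ne a2 b2,
      lt_of_le_of_ne a3 (Ne.symm b3), lt_of_le_of_ne a4 b4, h⟩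
  exact hρ' w a1 a3 hw0 (b5.trans (min_le_left _ _))

/-- The multiplier. -/
noncomputable def mult (c : ℝ) (n : ℕ) (z : ℂ) : ℂ :=
  Complex.exp (n * (Complex.log (c * z) + (I / (Real.pi : ℂ)) * (Complex.log (c * z)) ^ 2))

theorem norm_mult {c : ℝ} (hc : 0 < c) (n : ℕ) (z : ℂ) :
    ‖mult c n z‖ = Real.exp (n * (Real.log (c * ‖z‖) * (1 - 2 / Real.pi * arg z))) := by
  unfold mult
  rw [Complex.norm_exp]
  congr 1
  have h1 : (Complex.log (c * z)).re = Real.log (c * ‖z‖) := by
    rw [Complex.log_re, norm_mul, Complex.norm_real, Real.norm_of_nonneg hc.le]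
  have h2 : (Complex.log (c * z)).im = arg z := by
    rw [Complex.log_im, Complex.arg_real_mul z hc]
  rw [← h1, ← h2]
  set L := Complex.log (c * z)
  have h3 : (I / (Real.pi : ℂ)) * L ^ 2 = ((1 / Real.pi : ℝ) : ℂ) * (I * L ^ 2) := by
    push_cast; ring
  have h4 : (n : ℂ) = ((n : ℝ) : ℂ) := by push_cast; rfl
  rw [h3, h4, Complex.re_ofReal_mul, Complex.add_re, Complex.re_ofReal_mul, pow_two]
  simp only [mul_re, I_re, I_im, mul_im]
  ring

theorem differentiableAt_mult {c : ℝ} (hc : 0 < c) (n : ℕ) {z : ℂ} (h1 : 0 ≤ z.re)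
    (h0 : z ≠ 0) : DifferentiableAt ℂ (mult c n) z := by
  have hs : (c : ℂ) * z ∈ slitPlane := by
    rw [Complex.mem_slitPlane_iff]
    simp only [Complex.re_ofReal_mul, Complex.im_ofReal_mul]
    by_cases h : z.im = 0
    · left
      have : z.re ≠ 0 := by
        intro h'
        exact h0 (Complex.ext h' h)
      have : 0 < z.re := lt_of_le_of_ne h1 (Ne.symm this)
      positivity
    · right
      exact mul_ne_zero hc.ne' h
  have hl : DifferentiableAt ℂ (fun z : ℂ => Complex.log (c * z)) z :=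
    ((differentiableAt_id.const_mul (c : ℂ)).clog hs)
  unfold mult
  exact ((hl.add ((hl.pow 2).const_mul _)).const_mul _).cexp

/-- cosine of the argument, two sided bound. -/
theorem arg_bounds {z : ℂ} (h1 : 0 ≤ z.re) (h2 : 0 ≤ z.im) (h0 : z ≠ 0) :
    2 / Real.pi * (z.re / ‖z‖) ≤ 1 - 2 / Real.pi * arg z ∧
      1 - 2 / Real.pi * arg z ≤ z.re / ‖z‖ := by
  have ha0 : 0 ≤ arg z := Complex.arg_nonneg_iff.mpr h2
  have ha1 : arg z ≤ Real.pi / 2 := Complex.arg_le_pi_div_two_iff.mpr (Or.inl h1)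
  have hcos : Real.cos (arg z) = z.re / ‖z‖ := Complex.cos_arg h0
  have hpi := Real.pi_pos
  rw [← hcos, ← Real.sin_pi_div_two_sub]
  constructor
  · have := Real.sin_le (x := Real.pi / 2 - arg z) (by linarith)
    calc 2 / Real.pi * Real.sin (Real.pi / 2 - arg z)
        ≤ 2 / Real.pi * (Real.pi / 2 - arg z) := by gcongr
      _ = 1 - 2 / Real.pi * arg z := by field_simp
  · have := Real.mul_le_sin (x := Real.pi / 2 - arg z) (by linarith) (by linarith)
    calc 1 - 2 / Real.pi * arg z = 2 / Real.pi * (Real.pi / 2 - arg z) := by field_simp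
      _ ≤ _ := this

theorem norm_le_norm_add_real {w : ℂ} {Y : ℝ} (hw : 0 ≤ w.re) (hY : 0 ≤ Y) :
    ‖w‖ ≤ ‖w + Y‖ := by
  rw [← sq_le_sq₀ (norm_nonneg _) (norm_nonneg _), ← Complex.normSq_eq_norm_sq,
    ← Complex.normSq_eq_norm_sq, Complex.normSq_apply, Complex.normSq_apply]
  simp only [add_re, ofReal_re, add_im, ofReal_im]
  nlinarith [mul_nonneg hw hY]

/-- The top factor. -/
noncomputable def topf (R Y : ℝ) (n : ℕ) (z : ℂ) : ℂ :=
  ((z - R * I) / (z - R * I + Y)) ^ n

theorem norm_topf_le_one {R Y : ℝ} (hY : 0 < Y) (n : ℕ) {z : ℂ} (hz : 0 ≤ z.re) :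
    ‖topf R Y n z‖ ≤ 1 := by
  unfold topf
  rw [norm_pow, norm_div]
  apply pow_le_one₀ (by positivity)
  apply div_le_one_of_le₀ _ (norm_nonneg _)
  apply norm_le_norm_add_real _ hY.le
  simpa using hz

theorem den_ne {R Y : ℝ} (hY : 0 < Y) {z : ℂ} (hz : 0 ≤ z.re) : z - R * I + Y ≠ 0 := by
  intro h
  have := congrArg Complex.re h
  simp at this
  linarith

theorem differentiableAt_topf {R Y : ℝ} (hY : 0 < Y) (n : ℕ) {z : ℂ} (hz : 0 ≤ z.re) :
    DifferentiableAt ℂ (topf R Y n) z := by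
  unfold topf
  have h1 : DifferentiableAt ℂ (fun z : ℂ => z - R * I) z := by fun_prop
  exact (h1.div (h1.add_const _) (den_ne hY hz)).pow n

theorem log_mul_div_le {c a b : ℝ} (hc : 0 < c) (ha : Real.exp 1 ≤ c * a) (hab : a ≤ b) :
    Real.log (c * b) * (a / b) ≤ Real.log (c * a) := by
  have ha0 : 0 < a := by
    have := Real.exp_pos 1
    by_contra h
    push Not at h
    nlinarith
  have hb0 : 0 < b := ha0.trans_le hab
  have hcb : c * a ≤ c * b := by gcongr
  have := Real.log_div_self_antitoneOn (a := c * a) (b := c * b) ha (ha.trans hcb) hcb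
  simp only at this
  have hca : 0 < c * a := by positivity
  calc Real.log (c * b) * (a / b) = Real.log (c * b) / (c * b) * (c * a) := by
        field_simp
    _ ≤ Real.log (c * a) / (c * a) * (c * a) := by gcongr
    _ = Real.log (c * a) := by field_simp

/-- Main quadrant estimate. -/
theorem quad_bound {G : ℂ → ℂ} {n : ℕ} {Y R M B c : ℝ} (hn : 1 ≤ n) (hc : 0 < c)
    (hcY : Real.exp 1 ≤ c * Y) (hcR : Real.exp 1 ≤ c * R)
    (hYR : Y * Real.log (c * R) ≤ R) (hB : 0 ≤ B) (hBM : B * c ^ n ≤ M)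
    (hd : ∀ z : ℂ, 0 ≤ z.re → 0 ≤ z.im → z.im ≤ R → DifferentiableAt ℂ G z)
    (hl : ∀ z : ℂ, z.re = 0 → 0 ≤ z.im → z.im ≤ R → ‖G z‖ ≤ M)
    (hr : ∀ z : ℂ, 0 < z.re → 0 ≤ z.im → z.im ≤ R → ‖G z‖ ≤ B / z.re ^ n) :
    ∀ z : ℂ, 0 < z.re → z.re < Y → 0 < z.im → z.im < R →
      ‖G z‖ * Real.exp (n * (Real.log (c * ‖z‖) * (1 - 2 / Real.pi * arg z))) *
        ‖topf R Y n z‖ ≤ M := by
  have hY : 0 < Y := by
    have := Real.exp_pos 1
    by_contra h
    push Not at h
    nlinarith
  have hR : 0 < R := by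
    have := Real.exp_pos 1
    by_contra h
    push Not at h
    nlinarith
  have hM : 0 ≤ M := le_trans (by positivity) hBM
  have key := rect_max (Φ := fun z => G z * mult c n z * topf R Y n z) (Y := Y) (R := R) (M := M)
    ?_ ?_ ?_ ?_ ?_ ?_
  · intro z h1 h2 h3 h4
    have := key z h1 h2 h3 h4
    simpa [norm_mult hc] using this
  · intro z h1 h2 h3 h4 h0
    exact ((hd z h1 h3 h4).mul (differentiableAt_mult hc n h1 h0)).mul
      (differentiableAt_topf hY n h1)
  · -- left
    intro z h1 h2 h3 h0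
    have hb := arg_bounds h1.ge h2 h0
    rw [h1] at hb
    have hz : 1 - 2 / Real.pi * arg z = 0 := by
      have := hb.1; have := hb.2
      simp at *
      linarith
    simp only [norm_mul, norm_mult hc, hz, mul_zero, Real.exp_zero, mul_one]
    calc ‖G z‖ * ‖topf R Y n z‖ ≤ M * 1 :=
          mul_le_mul (hl z h1 h2 h3) (norm_topf_le_one hY n h1.ge) (norm_nonneg _) hM
      _ = M := mul_one M
  · -- bottom
    intro z h1 h2 h3 h0
    have hre : 0 < z.re := by
      refine lt_of_le_of_ne h2 (fun h => h0 (Complex.ext h.symm h1))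
    have hzr : z = (z.re : ℂ) := Complex.ext rfl (by simp [h1])
    have hn' : ‖z‖ = z.re := by
      rw [hzr, Complex.norm_real, Real.norm_of_nonneg]
      · simp
      · simpa using hre.le
    have harg : arg z = 0 := by
      rw [hzr]; exact Complex.arg_ofReal_of_nonneg hre.le
    simp only [norm_mul, norm_mult hc, harg, mul_zero, sub_zero, mul_one, hn']
    have he : Real.exp (n * Real.log (c * z.re)) = (c * z.re) ^ n := by
      rw [Real.exp_nat_mul, Real.exp_log (by positivity)]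
    rw [he]
    have hG := hr z hre h1.ge (by rw [h1]; exact hR.le)
    calc ‖G z‖ * (c * z.re) ^ n * ‖topf R Y n z‖ ≤ (B / z.re ^ n) * (c * z.re) ^ n * 1 := by
          gcongr
          exact norm_topf_le_one hY n h2
      _ = B * c ^ n := by rw [mul_pow]; field_simp
      _ ≤ M := hBM
  · -- right
    intro z h1 h2 h3 h0
    have hre : 0 < z.re := by rw [h1]; exact hY
    have hrn : Y ≤ ‖z‖ := by rw [← h1]; exact Complex.re_le_norm z
    have hb := (arg_bounds hre.le h2 h0).2
    have hlog : 0 ≤ Real.log (c * ‖z‖) := by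
      apply Real.log_nonneg
      have : 1 ≤ Real.exp 1 := Real.one_le_exp (by norm_num)
      have : c * Y ≤ c * ‖z‖ := by gcongr
      linarith
    have he : Real.exp (n * (Real.log (c * ‖z‖) * (1 - 2 / Real.pi * arg z))) ≤ (c * Y) ^ n := by
      have : Real.exp (n * Real.log (c * Y)) = (c * Y) ^ n := by
        rw [Real.exp_nat_mul, Real.exp_log (by positivity)]
      rw [← this]
      apply Real.exp_le_exp.mpr
      gcongr
      calc Real.log (c * ‖z‖) * (1 - 2 / Real.pi * arg z)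
          ≤ Real.log (c * ‖z‖) * (z.re / ‖z‖) := by gcongr
        _ ≤ Real.log (c * Y) := by rw [h1]; exact log_mul_div_le hc hcY hrn
    simp only [norm_mul, norm_mult hc]
    have hG := hr z hre h2 h3
    rw [h1] at hG
    calc ‖G z‖ * Real.exp (n * (Real.log (c * ‖z‖) * (1 - 2 / Real.pi * arg z))) *
          ‖topf R Y n z‖ ≤ (B / Y ^ n) * (c * Y) ^ n * 1 := by
          gcongr
          exact norm_topf_le_one hY n hre.le
      _ = B * c ^ n := by rw [mul_pow]; field_simp
      _ ≤ M := hBM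
  · -- top
    intro z h1 h2 h3 h0
    by_cases hre0 : z.re = 0
    · have : topf R Y n z = 0 := by
        unfold topf
        have : z - R * I = 0 := by
          apply Complex.ext <;> simp [hre0, h1]
        rw [this, zero_div, zero_pow (by omega)]
      simp only [this, mul_zero, norm_zero]
      exact hM
    have hre : 0 < z.re := lt_of_le_of_ne h2 (Ne.symm hre0)
    have hrn : R ≤ ‖z‖ := by rw [← h1]; exact Complex.im_le_norm z
    have hb := (arg_bounds h2 (by rw [h1]; exact hR.le) h0).2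
    have hzn : 0 < ‖z‖ := hR.trans_le hrn
    have hlog : 0 ≤ Real.log (c * ‖z‖) := by
      apply Real.log_nonneg
      have : 1 ≤ Real.exp 1 := Real.one_le_exp (by norm_num)
      have : c * R ≤ c * ‖z‖ := by gcongr
      linarith
    have hlogR : 0 ≤ Real.log (c * R) := by
      apply Real.log_nonneg
      have : 1 ≤ Real.exp 1 := Real.one_le_exp (by norm_num)
      linarith
    have he : Real.exp (n * (Real.log (c * ‖z‖) * (1 - 2 / Real.pi * arg z))) ≤
        (Real.exp 1) ^ n := by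
      rw [← Real.exp_nat_mul]
      apply Real.exp_le_exp.mpr
      gcongr
      calc Real.log (c * ‖z‖) * (1 - 2 / Real.pi * arg z)
          ≤ Real.log (c * ‖z‖) * (z.re / ‖z‖) := by gcongr
        _ = (Real.log (c * ‖z‖) * (R / ‖z‖)) * (z.re / R) := by field_simp
        _ ≤ Real.log (c * R) * (Y / R) := by
            gcongr
            exact log_mul_div_le hc hcR hrn
        _ = Y * Real.log (c * R) / R := by ring
        _ ≤ 1 := by rw [div_le_one hR]; exact hYR
    have htop : ‖topf R Y n z‖ = (z.re / (z.re + Y)) ^ n := by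
      unfold topf
      have e1 : z - R * I = (z.re : ℂ) := by
        apply Complex.ext <;> simp [h1]
      rw [e1, norm_pow, norm_div, Complex.norm_real, ← Complex.ofReal_add, Complex.norm_real,
        Real.norm_of_nonneg h2, Real.norm_of_nonneg (by positivity)]
    simp only [norm_mul, norm_mult hc]
    have hG := hr z hre (by rw [h1]; exact hR.le) h1.le
    rw [htop]
    calc ‖G z‖ * Real.exp (n * (Real.log (c * ‖z‖) * (1 - 2 / Real.pi * arg z))) *
          (z.re / (z.re + Y)) ^ n ≤ (B / z.re ^ n) * (Real.exp 1) ^ n *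
          (z.re / (z.re + Y)) ^ n := by gcongr
      _ = B * (Real.exp 1 / (z.re + Y)) ^ n := by
          rw [div_pow, div_pow]; field_simp
      _ ≤ B * c ^ n := by
          gcongr
          rw [div_le_iff₀ (by positivity)]
          nlinarith
      _ ≤ M := hBM
  · -- near zero
    intro ε hε
    have hcont : ContinuousAt G 0 := (hd 0 (by simp) (by simp) (by simpa using hR.le)).continuousAt
    have h2 := Metric.continuousAt_iff.mp hcont ε hε
    obtain ⟨δ, hδ, hδ'⟩ := h2
    refine ⟨min (δ / 2) (1 / c), lt_min (by positivity) (by positivity), ?_⟩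
    intro z hz1 hz2 hz0 hz
    have hz3 : dist z 0 < δ := by
      rw [dist_zero_right]
      have := hz.trans (min_le_left _ _)
      linarith
    have h4 := hδ' hz3
    have h5 : ‖G z‖ ≤ M + ε := by
      have h6 : ‖G 0‖ ≤ M := hl 0 (by simp) (by simp) (by simpa using hR.le)
      calc ‖G z‖ = ‖G 0 + (G z - G 0)‖ := by congr 1; ring
        _ ≤ ‖G 0‖ + ‖G z - G 0‖ := norm_add_le _ _
        _ ≤ M + ε := by rw [dist_eq_norm] at h4; linarith
    simp only [norm_mul, norm_mult hc]
    have hzn : 0 < ‖z‖ := norm_pos_iff.mpr hz0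
    have hlog : Real.log (c * ‖z‖) ≤ 0 := by
      apply Real.log_nonpos (by positivity)
      have := hz.trans (min_le_right _ _)
      rw [le_div_iff₀ hc] at this
      linarith
    have hb := (arg_bounds hz1 hz2 hz0).1
    have hb' : 0 ≤ 1 - 2 / Real.pi * arg z := le_trans (by positivity) hb
    have he : Real.exp (n * (Real.log (c * ‖z‖) * (1 - 2 / Real.pi * arg z))) ≤ 1 := by
      rw [Real.exp_le_one_iff]
      apply mul_nonpos_of_nonneg_of_nonpos (by positivity)
      exact mul_nonpos_of_nonpos_of_nonneg hlog hb'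
    calc ‖G z‖ * Real.exp (n * (Real.log (c * ‖z‖) * (1 - 2 / Real.pi * arg z))) *
          ‖topf R Y n z‖ ≤ (M + ε) * 1 * 1 := by
          gcongr
          exact norm_topf_le_one hY n hz1
      _ = M + ε := by ring

end Pool.Agent.Lib.MP_fcf965_nt
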