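import Mathlib
import Pool.Agent.Lib.MP_fcf965_nt.Quad

open Complex Set Filter Topology

namespace Pool.Agent.Lib.MP_fcf965_nt

theorem topf_lower {R Y D : ℝ} (hY : 0 < Y) (n : ℕ) {z : ℂ} (hz : 0 ≤ z.re) (hD : 0 < D)
    (hDR : D ≤ R - z.im) : 1 ≤ ‖topf R Y n z‖ * Real.exp (n * (Y / D)) := by
  unfold topf
  set w := z - R * I with hw
  have hw1 : D ≤ ‖w‖ := by
    have h1 : |w.im| ≤ ‖w‖ := Complex.abs_im_le_norm w
    have h2 : w.im = z.im - R := by simp [hw]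
    rw [h2, abs_sub_comm] at h1
    exact (hDR.trans (le_abs_self _)).trans h1
  have hw0 : 0 < ‖w‖ := hD.trans_le hw1
  have hden : w + Y ≠ 0 := den_ne hY hz
  have hden' : 0 < ‖w + Y‖ := norm_pos_iff.mpr hden
  have h3 : ‖w + Y‖ ≤ ‖w‖ * Real.exp (Y / D) := by
    calc ‖w + Y‖ ≤ ‖w‖ + ‖(Y : ℂ)‖ := norm_add_le _ _
      _ = ‖w‖ + Y := by rw [Complex.norm_real, Real.norm_of_nonneg hY.le]
      _ ≤ ‖w‖ + ‖w‖ * (Y / D) := by
        gcongr
        calc Y = D * (Y / D) := by field_simp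
          _ ≤ ‖w‖ * (Y / D) := by gcongr
      _ = ‖w‖ * (Y / D + 1) := by ring
      _ ≤ ‖w‖ * Real.exp (Y / D) := by
        gcongr
        exact Real.add_one_le_exp _
  rw [norm_pow, norm_div, Real.exp_nat_mul, ← mul_pow]
  apply one_le_pow₀
  rw [div_mul_eq_mul_div, le_div_iff₀ hden', one_mul]
  exact h3

theorem quad_bound' {G : ℂ → ℂ} {n : ℕ} {Y R M B c : ℝ} (hn : 1 ≤ n) (hc : 0 < c)
    (hcY : Real.exp 1 ≤ c * Y) (hcR : Real.exp 1 ≤ c * R)
    (hYR : Y * Real.log (c * R) ≤ R) (hB : 0 ≤ B) (hBM : B * c ^ n ≤ M)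
    (hd : ∀ z : ℂ, 0 ≤ z.re → 0 ≤ z.im → z.im ≤ R → DifferentiableAt ℂ G z)
    (hl : ∀ z : ℂ, z.re = 0 → 0 ≤ z.im → z.im ≤ R → ‖G z‖ ≤ M)
    (hr : ∀ z : ℂ, 0 < z.re → 0 ≤ z.im → z.im ≤ R → ‖G z‖ ≤ B / z.re ^ n)
    {z : ℂ} (h1 : 0 < z.re) (h2 : z.re < Y) (h3 : 0 < z.im) (h5 : 1 ≤ c * ‖z‖)
    {D : ℝ} (hD : 0 < D) (hDR : D ≤ R - z.im) :
    ‖G z‖ * Real.exp (n * (Real.log (c * ‖z‖) * (2 / Real.pi * (z.re / ‖z‖)))) ≤
      M * Real.exp (n * (Y / D)) := by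
  have hY : 0 < Y := h1.trans h2
  have key := quad_bound hn hc hcY hcR hYR hB hBM hd hl hr z h1 h2 h3 (by linarith)
  have hz0 : z ≠ 0 := by
    intro h
    simp [h] at h1
  have htop := topf_lower (R := R) hY n h1.le hD hDR
  have harg := (arg_bounds h1.le h3.le hz0).1
  have hlog : 0 ≤ Real.log (c * ‖z‖) := Real.log_nonneg h5
  have he : Real.exp (n * (Real.log (c * ‖z‖) * (2 / Real.pi * (z.re / ‖z‖)))) ≤
      Real.exp (n * (Real.log (c * ‖z‖) * (1 - 2 / Real.pi * arg z))) := by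
    apply Real.exp_le_exp.mpr
    gcongr
  calc ‖G z‖ * Real.exp (n * (Real.log (c * ‖z‖) * (2 / Real.pi * (z.re / ‖z‖))))
      ≤ ‖G z‖ * Real.exp (n * (Real.log (c * ‖z‖) * (1 - 2 / Real.pi * arg z))) := by gcongr
    _ ≤ ‖G z‖ * Real.exp (n * (Real.log (c * ‖z‖) * (1 - 2 / Real.pi * arg z))) *
        (‖topf R Y n z‖ * Real.exp (n * (Y / D))) := by
        exact le_mul_of_one_le_right (by positivity) htop
    _ = (‖G z‖ * Real.exp (n * (Real.log (c * ‖z‖) * (1 - 2 / Real.pi * arg z))) *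
        ‖topf R Y n z‖) * Real.exp (n * (Y / D)) := by ring
    _ ≤ M * Real.exp (n * (Y / D)) := by gcongr

/-- specialised form of the quadrant estimate with the constants used for the main step -/
theorem quad_special {G : ℂ → ℂ} {n : ℕ} {R M B : ℝ} (hn : 1 ≤ n) (hR : 1000 ≤ R)
    (hnR : 10 * (n : ℝ) ≤ R - 1) (hB : 0 ≤ B)
    (hBM : B * (5 / 4) ^ n * Real.exp 100 ≤ M)
    (hd : ∀ z : ℂ, 0 ≤ z.re → 0 ≤ z.im → z.im ≤ R → DifferentiableAt ℂ G z)
    (hl : ∀ z : ℂ, z.re = 0 → 0 ≤ z.im → z.im ≤ R → ‖G z‖ ≤ M)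
    (hr : ∀ z : ℂ, 0 < z.re → 0 ≤ z.im → z.im ≤ R → ‖G z‖ ≤ B / z.re ^ n)
    {z : ℂ} (h1 : 0 < z.re) (h2 : z.re ≤ 1 / 10) (h3 : z.im = 4 / 5) :
    ‖G z‖ * Real.exp (200 / Real.pi * z.re) ≤ M * (3 / 2) := by
  set c : ℝ := Real.exp (100 / n) * (5 / 4) with hcdef
  have hnpos : (0 : ℝ) < n := by exact_mod_cast hn
  have hn1 : (1 : ℝ) ≤ n := by exact_mod_cast hn
  have he1 : 1 ≤ Real.exp (100 / n) := Real.one_le_exp (by positivity)
  have hc54 : 5 / 4 ≤ c := by rw [hcdef]; linarith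
  have hc : 0 < c := by linarith
  have hexp1 : Real.exp 1 ≤ 3 := by
    have := Real.exp_one_lt_d9
    linarith
  have hcn : c ^ n = Real.exp 100 * (5 / 4) ^ n := by
    rw [hcdef, mul_pow, ← Real.exp_nat_mul]
    congr 2
    field_simp
  have hM : 0 ≤ M := le_trans (by positivity) hBM
  have hRpos : 0 < R := by linarith
  have hlogc : Real.log c ≤ 100 + 1 / 4 := by
    rw [hcdef, Real.log_mul (Real.exp_pos _).ne' (by norm_num), Real.log_exp]
    have h4 : (100 : ℝ) / n ≤ 100 := by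
      rw [div_le_iff₀ hnpos]; nlinarith
    have h5 : Real.log (5 / 4) ≤ 1 / 4 := by
      have := Real.log_le_sub_one_of_pos (show (0 : ℝ) < 5 / 4 by norm_num)
      linarith
    linarith
  have hlogR : Real.log R ≤ R / 6 + 1 := by
    have h6 : Real.log (R / 6) ≤ R / 6 - 1 := Real.log_le_sub_one_of_pos (by positivity)
    rw [Real.log_div (by linarith) (by norm_num)] at h6
    have h7 : Real.log 6 ≤ 2 := by
      rw [Real.log_le_iff_le_exp (by norm_num)]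
      have := Real.exp_one_gt_d9
      have h8 : Real.exp 2 = Real.exp 1 * Real.exp 1 := by
        rw [← Real.exp_add]; norm_num
      rw [h8]; nlinarith
    linarith
  have hYR : 3 * Real.log (c * R) ≤ R := by
    rw [Real.log_mul hc.ne' hRpos.ne']
    linarith
  have hz0 : z ≠ 0 := by
    intro h
    simp [h] at h1
  have hzn1 : 4 / 5 ≤ ‖z‖ := by
    rw [← h3]; exact Complex.im_le_norm z
  have hzn2 : ‖z‖ ≤ 1 := by
    rw [← sq_le_sq₀ (norm_nonneg _) (by norm_num), ← Complex.normSq_eq_norm_sq,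
      Complex.normSq_apply, h3]
    nlinarith
  have hcz : Real.exp (100 / n) ≤ c * ‖z‖ := by
    calc Real.exp (100 / n) = Real.exp (100 / n) * (5 / 4) * (4 / 5) := by ring
      _ ≤ c * ‖z‖ := by rw [← hcdef]; gcongr
  have key := quad_bound' (G := G) (n := n) (Y := 3) (R := R) (M := M) (B := B) (c := c) hn hc
    (by nlinarith) (by nlinarith) hYR hB (by rw [hcn]; linarith) hd hl hr h1
    (by linarith) (by rw [h3]; norm_num) (he1.trans hcz) (D := R - 1) (by linarith)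
    (by rw [h3]; linarith)
  have hE1 : Real.exp (n * (3 / (R - 1))) ≤ 3 / 2 := by
    have h9 : (n : ℝ) * (3 / (R - 1)) ≤ 3 / 10 := by
      rw [mul_div_assoc', div_le_iff₀ (by linarith)]
      linarith
    have h10 : Real.exp (3 / 10) ≤ 3 / 2 := by
      have h11 : Real.exp (3 / 10) ^ 10 ≤ (3 / 2 : ℝ) ^ 10 := by
        rw [← Real.exp_nat_mul]
        have h12 : Real.exp ((10 : ℕ) * (3 / 10)) = Real.exp 1 ^ 3 := by
          rw [← Real.exp_nat_mul]; norm_num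
        rw [h12]
        calc Real.exp 1 ^ 3 ≤ (3 : ℝ) ^ 3 := by gcongr
          _ ≤ (3 / 2) ^ 10 := by norm_num
      exact le_of_pow_le_pow_left₀ (by norm_num) (by norm_num) h11
    exact (Real.exp_le_exp.mpr h9).trans h10
  have hE2 : Real.exp (200 / Real.pi * z.re) ≤
      Real.exp (n * (Real.log (c * ‖z‖) * (2 / Real.pi * (z.re / ‖z‖)))) := by
    apply Real.exp_le_exp.mpr
    have h13 : 100 / (n : ℝ) ≤ Real.log (c * ‖z‖) := by
      rw [Real.le_log_iff_exp_le (by positivity)]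
      exact hcz
    have h14 : z.re ≤ z.re / ‖z‖ := by
      rw [le_div_iff₀ (by linarith)]
      nlinarith
    calc 200 / Real.pi * z.re = n * ((100 / n) * (2 / Real.pi * z.re)) := by
          field_simp; ring
      _ ≤ n * (Real.log (c * ‖z‖) * (2 / Real.pi * (z.re / ‖z‖))) := by
          have h20 : 0 ≤ Real.log (c * ‖z‖) := le_trans (by positivity) h13
          gcongr
  calc ‖G z‖ * Real.exp (200 / Real.pi * z.re)
      ≤ ‖G z‖ * Real.exp (n * (Real.log (c * ‖z‖) * (2 / Real.pi * (z.re / ‖z‖)))) := by gcongr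
    _ ≤ M * Real.exp (n * (3 / (R - 1))) := key
    _ ≤ M * (3 / 2) := by gcongr

/-- the main step -/
theorem up_lemma {F F1 : ℂ → ℂ} {m : ℕ} {R M B0 B1 : ℝ} (hm : 1 ≤ m) (hR : 1000 ≤ R)
    (hmR : 10 * ((m : ℝ) + 1) ≤ R - 1) (hB0 : 0 ≤ B0) (hB1 : 0 ≤ B1)
    (hM0 : B0 * (5 / 4) ^ m * Real.exp 100 ≤ M)
    (hM1 : B1 * (5 / 4) ^ (m + 1) * Real.exp 100 ≤ M)
    (hF : ∀ z : ℂ, 0 ≤ z.re → 0 ≤ z.im → z.im ≤ R → HasDerivAt F (F1 z) z)
    (hF1 : ∀ z : ℂ, 0 ≤ z.re → 0 ≤ z.im → z.im ≤ R → DifferentiableAt ℂ F1 z)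
    (hl0 : ∀ z : ℂ, z.re = 0 → 0 ≤ z.im → z.im ≤ R → ‖F z‖ ≤ M)
    (hl1 : ∀ z : ℂ, z.re = 0 → 0 ≤ z.im → z.im ≤ R → ‖F1 z‖ ≤ M)
    (hr0 : ∀ z : ℂ, 0 < z.re → 0 ≤ z.im → z.im ≤ R → ‖F z‖ ≤ B0 / z.re ^ m)
    (hr1 : ∀ z : ℂ, 0 < z.re → 0 ≤ z.im → z.im ≤ R → ‖F1 z‖ ≤ B1 / z.re ^ (m + 1)) :
    ‖F 0‖ ≤ 97 / 100 * M := by
  have hM : 0 ≤ M := le_trans (by positivity) hM0
  set p : ℂ := ((4 / 5 : ℝ) : ℂ) * I with hp
  set q : ℂ := ((1 / 10 : ℝ) : ℂ) + ((4 / 5 : ℝ) : ℂ) * I with hq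
  have hpre : p.re = 0 := by simp [hp]
  have hpim : p.im = 4 / 5 := by simp [hp]
  have hqre : q.re = 1 / 10 := by simp [hq]
  have hqim : q.im = 4 / 5 := by simp [hq]
  -- vertical part
  have hv : ‖F p - F 0‖ ≤ M * ‖p - 0‖ := by
    have hconv : Convex ℝ {z : ℂ | z.re = 0 ∧ 0 ≤ z.im ∧ z.im ≤ 4 / 5} := by
      intro x hx y hy a b ha hb hab
      obtain ⟨x1, x2, x3⟩ := hx
      obtain ⟨y1, y2, y3⟩ := hy
      refine ⟨?_, ?_, ?_⟩
      · simp [x1, y1]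
      · simp; positivity
      · simp; nlinarith
    refine Convex.norm_image_sub_le_of_norm_hasDerivWithin_le (f' := F1) ?_ ?_ hconv ?_ ?_
    · intro x hx
      exact (hF x hx.1.ge hx.2.1 (by linarith [hx.2.2])).hasDerivWithinAt
    · intro x hx
      exact hl1 x hx.1 hx.2.1 (by linarith [hx.2.2])
    · simp; norm_num
    · exact ⟨hpre, by rw [hpim]; norm_num, hpim.le⟩
  have hpn : ‖p - 0‖ = 4 / 5 := by
    rw [sub_zero, hp, norm_mul, Complex.norm_real, Complex.norm_I]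
    norm_num
  -- horizontal part
  have hh : ‖F q - F p‖ ≤ (M * (3 / 2)) * ‖q - p‖ := by
    have hconv : Convex ℝ {z : ℂ | (0 ≤ z.re ∧ z.re ≤ 1 / 10) ∧ z.im = 4 / 5} := by
      intro x hx y hy a b ha hb hab
      obtain ⟨⟨x1, x2⟩, x3⟩ := hx
      obtain ⟨⟨y1, y2⟩, y3⟩ := hy
      refine ⟨⟨?_, ?_⟩, ?_⟩
      · simp; positivity
      · simp; nlinarith
      · simp [x3, y3, ← add_mul, hab]
    refine Convex.norm_image_sub_le_of_norm_hasDerivWithin_le (f' := F1) ?_ ?_ hconv ?_ ?_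
    · intro x hx
      exact (hF x hx.1.1 (by rw [hx.2]; norm_num) (by rw [hx.2]; linarith)).hasDerivWithinAt
    · intro x hx
      rcases hx.1.1.eq_or_lt with h0 | h0
      · have := hl1 x h0.symm (by rw [hx.2]; norm_num) (by rw [hx.2]; linarith)
        linarith
      · have h15 := quad_special (G := F1) (n := m + 1) (R := R) (M := M) (B := B1)
          (by omega) hR (by push_cast; linarith) hB1 hM1 hF1 hl1 hr1 h0 hx.1.2 hx.2
        have h16 : 1 ≤ Real.exp (200 / Real.pi * x.re) := by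
          apply Real.one_le_exp
          have := Real.pi_pos
          positivity
        exact (le_mul_of_one_le_right (norm_nonneg _) h16).trans h15
    · exact ⟨⟨hpre.ge, by rw [hpre]; norm_num⟩, hpim⟩
    · exact ⟨⟨by rw [hqre]; norm_num, hqre.le⟩, hqim⟩
  have hqpn : ‖q - p‖ = 1 / 10 := by
    have : q - p = ((1 / 10 : ℝ) : ℂ) := by rw [hq, hp]; ring
    rw [this, Complex.norm_real]
    norm_num
  -- the end point
  have hend : ‖F q‖ * Real.exp (200 / Real.pi * q.re) ≤ M * (3 / 2) :=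
    quad_special (G := F) (n := m) (R := R) (M := M) (B := B0) hm hR (by linarith) hB0 hM0
      (fun z h1 h2 h3 => (hF z h1 h2 h3).differentiableAt) hl0 hr0
      (by rw [hqre]; norm_num) hqre.le hqim
  have hexp : 100 ≤ Real.exp (200 / Real.pi * q.re) := by
    rw [hqre]
    have h17 : 6 ≤ 200 / Real.pi * (1 / 10) := by
      have := Real.pi_lt_d2
      have := Real.pi_pos
      rw [div_mul_eq_mul_div, le_div_iff₀ Real.pi_pos]
      linarith
    have h18 : (100 : ℝ) ≤ Real.exp 6 := by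
      have h19 : Real.exp 6 = Real.exp 1 ^ 6 := by
        rw [← Real.exp_nat_mul]; norm_num
      rw [h19]
      have := Real.exp_one_gt_d9
      calc (100 : ℝ) ≤ (2.7) ^ 6 := by norm_num
        _ ≤ Real.exp 1 ^ 6 := by gcongr; linarith
    exact h18.trans (Real.exp_le_exp.mpr h17)
  have hend' : ‖F q‖ ≤ 2 / 100 * M := by
    have : ‖F q‖ * 100 ≤ M * (3 / 2) :=
      (mul_le_mul_of_nonneg_left hexp (norm_nonneg _)).trans hend
    linarith
  rw [hpn] at hv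
  rw [hqpn] at hh
  calc ‖F 0‖ = ‖F q - (F q - F p) - (F p - F 0)‖ := by congr 1; ring
    _ ≤ ‖F q - (F q - F p)‖ + ‖F p - F 0‖ := norm_sub_le _ _
    _ ≤ ‖F q‖ + ‖F q - F p‖ + ‖F p - F 0‖ := by gcongr; exact norm_sub_le _ _
    _ ≤ 2 / 100 * M + M * (3 / 2) * (1 / 10) + M * (4 / 5) := by gcongr
    _ = 97 / 100 * M := by ring

end Pool.Agent.Lib.MP_fcf965_nt
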