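import Mathlib
import Pool.Agent.Lib.MP_fcf965_nt.Up
import Pool.Agent.Lib.MP_fcf965_nt.Dir

open Complex Set Filter Topology

namespace Pool.Agent.Lib.MP_fcf965_nt

theorem transfer {l : ℕ} (hl : 1 ≤ l) {T M : ℝ} (hT : 1000 ≤ T)
    (hlT : 100 * ((l : ℝ) + 1) ≤ √T) (hM : 1 ≤ M)
    (hb : ∀ t : ℝ, T ≤ t → t ≤ 2 * T → ‖iteratedDeriv l riemannZeta (1 + t * I)‖ ≤ M)
    {x t : ℝ} (hx : 0 < x) (hx1 : x ≤ 1) (ht1 : 5 / 4 * T ≤ t) (ht2 : t ≤ 3 / 2 * T) :
    ‖iteratedDeriv l riemannZeta (1 + x + t * I)‖ ≤ 2 * M := by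
  have hTpos : 0 < T := by linarith
  have hs : 0 < √T := Real.sqrt_pos.mpr hTpos
  have hss : √T * √T = T := Real.mul_self_sqrt hTpos.le
  have hexp1 : Real.exp 1 ≤ 3 := by
    have := Real.exp_one_lt_d9
    linarith
  have hexp0 : 2 ≤ Real.exp 1 := by
    have := Real.exp_one_gt_d9
    linarith
  have hl1 : (1 : ℝ) ≤ l := by exact_mod_cast hl
  have hs200 : 200 ≤ √T := by nlinarith
  set G : ℂ → ℂ := fun z => iteratedDeriv l riemannZeta (1 + T * I + z) with hG
  set c : ℝ := 1 / √T with hc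
  set Y : ℝ := Real.exp 1 * √T with hY
  set B : ℝ := Real.exp 1 * (l + 1).factorial with hB
  set z : ℂ := x + ((t - T : ℝ) : ℂ) * I with hz
  have hzre : z.re = x := by simp [hz]
  have hzim : z.im = t - T := by simp [hz]
  have hcR : c * T = √T := by
    rw [hc]; field_simp; rw [sq, hss]
  have hYR : Y * Real.log (c * T) ≤ T := by
    rw [hcR, hY]
    have h1 : Real.log (√T / Real.exp 1) ≤ √T / Real.exp 1 - 1 :=
      Real.log_le_sub_one_of_pos (by positivity)
    rw [Real.log_div hs.ne' (Real.exp_pos 1).ne', Real.log_exp] at h1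
    have h2 : Real.log √T ≤ √T / Real.exp 1 := by linarith
    calc Real.exp 1 * √T * Real.log √T ≤ Real.exp 1 * √T * (√T / Real.exp 1) := by gcongr
      _ = √T * √T := by field_simp
      _ = T := hss
  have hBM : B * c ^ (l + 1) ≤ M := by
    refine le_trans ?_ hM
    rw [hB, hc]
    have h3 : ((l + 1).factorial : ℝ) ≤ ((l : ℝ) + 1) ^ (l + 1) := by
      have := Nat.factorial_le_pow (l + 1)
      exact_mod_cast this
    have h4 : ((l : ℝ) + 1) * (1 / √T) ≤ 1 / 100 := by
      rw [mul_one_div, div_le_iff₀ hs]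
      linarith
    calc Real.exp 1 * ((l + 1).factorial : ℝ) * (1 / √T) ^ (l + 1)
        ≤ 3 * ((l : ℝ) + 1) ^ (l + 1) * (1 / √T) ^ (l + 1) := by gcongr
      _ = 3 * (((l : ℝ) + 1) * (1 / √T)) ^ (l + 1) := by rw [mul_pow]; ring
      _ ≤ 3 * (1 / 100) ^ (l + 1) := by gcongr
      _ ≤ 3 * (1 / 100) ^ 1 := by
          gcongr 3 * ?_
          apply pow_le_pow_of_le_one (by norm_num) (by norm_num) (by omega)
      _ ≤ 1 := by norm_num
  have hne : ∀ w : ℂ, 0 ≤ w.im → 1 + T * I + w ≠ 1 := by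
    intro w hw h
    have := congrArg Complex.im h
    simp at this
    linarith
  have key := quad_bound' (G := G) (n := l + 1) (Y := Y) (R := T) (M := M) (B := B) (c := c)
    (by omega) (by positivity) (by rw [hc, hY]; apply le_of_eq; field_simp)
    (by rw [hcR]; linarith) hYR (by positivity) hBM ?_ ?_ ?_ (z := z) (by rw [hzre]; exact hx)
    (by rw [hzre, hY]; nlinarith) (by rw [hzim]; linarith) ?_ (D := T / 2) (by linarith)
    (by rw [hzim]; linarith)
  · have he1 : 1 ≤ Real.exp (((l + 1 : ℕ) : ℝ) * (Real.log (c * ‖z‖) *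
        (2 / Real.pi * (z.re / ‖z‖)))) := by
      apply Real.one_le_exp
      have h5 : 0 ≤ Real.log (c * ‖z‖) := by
        apply Real.log_nonneg
        rw [hc, one_div_mul_eq_div, le_div_iff₀ hs]
        have h6 : t - T ≤ ‖z‖ := by rw [← hzim]; exact Complex.im_le_norm z
        nlinarith
      have := Real.pi_pos
      rw [hzre]
      positivity
    have he2 : Real.exp (((l + 1 : ℕ) : ℝ) * (Y / (T / 2))) ≤ 2 := by
      have h7 : ((l + 1 : ℕ) : ℝ) * (Y / (T / 2)) ≤ 1 / 4 := by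
        push_cast
        rw [hY]
        have h8 : Real.exp 1 * √T / (T / 2) = 2 * Real.exp 1 / √T := by
          rw [div_eq_div_iff (by positivity) hs.ne', mul_assoc, hss]
          ring
        rw [h8, mul_div_assoc', div_le_iff₀ hs]
        nlinarith
      have h9 : Real.exp (1 / 4) ≤ 2 := by
        have h10 : Real.exp (1 / 4) ^ 4 ≤ (2 : ℝ) ^ 4 := by
          rw [← Real.exp_nat_mul]
          norm_num
          linarith
        exact le_of_pow_le_pow_left₀ (by norm_num) (by norm_num) h10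
      exact (Real.exp_le_exp.mpr h7).trans h9
    have h11 : (1 : ℂ) + x + t * I = 1 + T * I + z := by
      rw [hz]; push_cast; ring
    rw [h11]
    calc ‖G z‖ ≤ ‖G z‖ * Real.exp (((l + 1 : ℕ) : ℝ) * (Real.log (c * ‖z‖) *
        (2 / Real.pi * (z.re / ‖z‖)))) := le_mul_of_one_le_right (norm_nonneg _) he1
      _ ≤ M * Real.exp (((l + 1 : ℕ) : ℝ) * (Y / (T / 2))) := key
      _ ≤ M * 2 := by gcongr
      _ = 2 * M := by ring
  · intro w h1 h2 h3
    have h4 := hasDerivAt_zeta_iter l (hne w h2)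
    exact (h4.comp_const_add (1 + T * I) w).differentiableAt
  · intro w h1 h2 h3
    have h4 : 1 + T * I + w = 1 + ((T + w.im : ℝ) : ℂ) * I := by
      apply Complex.ext <;> simp [h1]
    rw [hG]
    simp only
    rw [h4]
    exact hb _ (by linarith) (by linarith)
  · intro w h1 h2 h3
    have h5 := norm_zeta_deriv_le hl (s := 1 + T * I + w) (by simp; linarith)
    simp only [add_re, one_re, mul_re, ofReal_re, I_re, mul_zero, ofReal_im, I_im, mul_one,
      sub_self, add_zero, add_sub_cancel_left] at h5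
    exact h5
  · rw [hc, one_div_mul_eq_div, le_div_iff₀ hs]
    have h6 : t - T ≤ ‖z‖ := by rw [← hzim]; exact Complex.im_le_norm z
    nlinarith

end Pool.Agent.Lib.MP_fcf965_nt
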