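import Mathlib
import Pool.Agent.Lib.MP_fcf965_nt.L2
import Pool.Agent.Lib.MP_fcf965_nt.Transfer

open Complex Set Filter Topology MeasureTheory

namespace Pool.Agent.Lib.MP_fcf965_nt

theorem ex_sub (w a b : ℝ) : ex w (a - b) * ex w b = ex w a := by
  unfold ex
  rw [← Complex.exp_add]
  congr 1
  push_cast
  ring

theorem almost_period (N : ℕ) {ε : ℝ} (hε : 0 < ε) : ∃ L : ℝ, 0 < L ∧ ∀ T : ℝ, ∃ τ : ℝ,
    T ≤ τ ∧ τ ≤ T + L ∧ ∀ n : ℕ, n < N → ‖ex (-Real.log n) τ - 1‖ ≤ ε := by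
  set g : ℝ → (Fin N → ℂ) := fun t i => ex (-Real.log ((i : ℕ) : ℝ)) t with hg
  have hb : TotallyBounded (Set.range g) := by
    have h1 : IsCompact (Metric.closedBall (0 : Fin N → ℂ) 1) := isCompact_closedBall _ _
    refine h1.totallyBounded.subset ?_
    rintro _ ⟨t, rfl⟩
    rw [mem_closedBall_zero_iff, pi_norm_le_iff_of_nonneg (by norm_num)]
    intro i
    rw [hg]
    exact (norm_ex _ _).le
  obtain ⟨s, hs1, hs2, hs3⟩ := hb.exists_subset (Metric.dist_mem_uniformity hε)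
  choose! p hp using fun y (hy : y ∈ s) => (hs1 hy : y ∈ Set.range g)
  obtain ⟨L0, hL0⟩ : ∃ L0 : ℝ, ∀ y ∈ s, |p y| ≤ L0 := by
    have := (hs2.image (fun y => |p y|)).bddAbove
    obtain ⟨L0, hL0⟩ := this
    exact ⟨L0, fun y hy => hL0 ⟨y, hy, rfl⟩⟩
  refine ⟨2 * max L0 1, by positivity, fun T => ?_⟩
  set u : ℝ := T + max L0 1 with hu
  have hmem : g u ∈ Set.range g := ⟨u, rfl⟩
  have h2 := hs3 hmem
  simp only [Set.mem_iUnion, Set.mem_ofPred_eq] at h2
  obtain ⟨y, hy, hdist⟩ := h2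
  have hpy : |p y| ≤ max L0 1 := (hL0 y hy).trans (le_max_left _ _)
  rw [abs_le] at hpy
  refine ⟨u - p y, by linarith [hpy.2], by linarith [hpy.1], fun n hn => ?_⟩
  have h3 : dist (g u ⟨n, hn⟩) (y ⟨n, hn⟩) ≤ ε := (dist_le_pi_dist _ _ _).trans hdist.le
  rw [← hp y hy] at h3
  simp only [hg, dist_eq_norm] at h3
  have h4 : ‖ex (-Real.log n) (u - p y) - 1‖ = ‖(ex (-Real.log n) (u - p y) - 1) *
      ex (-Real.log n) (p y)‖ := by rw [norm_mul, norm_ex, mul_one]
  rw [h4, sub_mul, ex_sub, one_mul]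
  exact h3

theorem large_at {l : ℕ} {x K : ℝ} (hx : 0 < x) (hK : K + 1 ≤ ∑' m, coef l x m) :
    ∃ L : ℝ, 0 < L ∧ ∀ T : ℝ, ∃ τ : ℝ, T ≤ τ ∧ τ ≤ T + L ∧
      K ≤ ‖iteratedDeriv l riemannZeta (1 + x + τ * I)‖ := by
  have hs := coef_summable l hx
  set A := ∑' m, coef l x m with hA
  have hA0 : 0 ≤ A := tsum_nonneg fun m => coef_nonneg _ _ _
  have htail := tendsto_sum_nat_add (fun m => coef l x m)
  obtain ⟨N, hN⟩ := (htail.eventually (gt_mem_nhds (show (0 : ℝ) < 1 / 4 by norm_num))).exists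
  set ε : ℝ := 1 / (2 * (1 + A)) with hε
  obtain ⟨L, hL, hLT⟩ := almost_period N (ε := ε) (by positivity)
  refine ⟨L, hL, fun T => ?_⟩
  obtain ⟨τ, h1, h2, h3⟩ := hLT T
  refine ⟨τ, h1, h2, ?_⟩
  have hf := hasSum_f l hx τ
  have hsC : HasSum (fun m => (coef l x m : ℂ)) (A : ℂ) := by
    exact_mod_cast Complex.hasSum_ofReal.mpr hs.hasSum
  have hd := hf.sub hsC
  have hterm : ∀ m, ‖(coef l x m : ℂ) * ex (-Real.log m) τ - (coef l x m : ℂ)‖ =
      coef l x m * ‖ex (-Real.log m) τ - 1‖ := by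
    intro m
    rw [show (coef l x m : ℂ) * ex (-Real.log m) τ - (coef l x m : ℂ) =
      (coef l x m : ℂ) * (ex (-Real.log m) τ - 1) by ring, norm_mul, Complex.norm_real,
      Real.norm_of_nonneg (coef_nonneg _ _ _)]
  have hle2 : ∀ m : ℕ, ‖ex (-Real.log m) τ - 1‖ ≤ 2 := by
    intro m
    calc _ ≤ ‖ex (-Real.log m) τ‖ + ‖(1 : ℂ)‖ := norm_sub_le _ _
      _ = 2 := by rw [norm_ex, norm_one]; norm_num
  have hsn : Summable (fun m => coef l x m * ‖ex (-Real.log m) τ - 1‖) := by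
    refine Summable.of_nonneg_of_le (fun m => mul_nonneg (coef_nonneg _ _ _) (norm_nonneg _))
      (fun m => ?_) (hs.mul_right 2)
    exact mul_le_mul_of_nonneg_left (hle2 m) (coef_nonneg _ _ _)
  have hnorm : ‖(-1) ^ l * iteratedDeriv l riemannZeta (1 + x + τ * I) - A‖ ≤
      ∑' m, coef l x m * ‖ex (-Real.log m) τ - 1‖ := by
    rw [← hd.tsum_eq]
    refine (norm_tsum_le_tsum_norm ?_).trans_eq ?_
    · simp only [hterm]; exact hsn
    · simp only [hterm]
  have hbd : ∑' m, coef l x m * ‖ex (-Real.log m) τ - 1‖ ≤ 1 := by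
    rw [← hsn.sum_add_tsum_nat_add N]
    have hp1 : ∑ m ∈ Finset.range N, coef l x m * ‖ex (-Real.log m) τ - 1‖ ≤ 1 / 2 := by
      calc ∑ m ∈ Finset.range N, coef l x m * ‖ex (-Real.log m) τ - 1‖
          ≤ ∑ m ∈ Finset.range N, coef l x m * ε := by
            refine Finset.sum_le_sum fun m hm => ?_
            exact mul_le_mul_of_nonneg_left (h3 m (Finset.mem_range.mp hm)) (coef_nonneg _ _ _)
        _ = (∑ m ∈ Finset.range N, coef l x m) * ε := by rw [Finset.sum_mul]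
        _ ≤ A * ε := by
            gcongr
            exact hs.sum_le_tsum _ fun m _ => coef_nonneg _ _ _
        _ ≤ 1 / 2 := by
            rw [hε, mul_one_div, div_le_iff₀ (by positivity)]
            linarith
    have hp2 : ∑' m, coef l x (m + N) * ‖ex (-Real.log ((m + N : ℕ) : ℝ)) τ - 1‖ ≤ 1 / 2 := by
      have hsN : Summable (fun m => coef l x (m + N)) := (summable_nat_add_iff N).mpr hs
      calc ∑' m, coef l x (m + N) * ‖ex (-Real.log ((m + N : ℕ) : ℝ)) τ - 1‖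
          ≤ ∑' m, coef l x (m + N) * 2 := by
            refine Summable.tsum_le_tsum (fun m => ?_) ((summable_nat_add_iff N).mpr hsn)
              (hsN.mul_right 2)
            exact mul_le_mul_of_nonneg_left (hle2 _) (coef_nonneg _ _ _)
        _ = (∑' m, coef l x (m + N)) * 2 := tsum_mul_right
        _ ≤ 1 / 2 := by linarith
    linarith
  have h5 : ‖(-1 : ℂ) ^ l * iteratedDeriv l riemannZeta (1 + x + τ * I)‖ =
      ‖iteratedDeriv l riemannZeta (1 + x + τ * I)‖ := by simp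
  rw [← h5]
  set W := (-1 : ℂ) ^ l * iteratedDeriv l riemannZeta (1 + x + τ * I) with hW
  have h6 : A ≤ ‖W‖ + 1 := by
    calc A = ‖(A : ℂ)‖ := by rw [Complex.norm_real, Real.norm_of_nonneg hA0]
      _ = ‖W - (W - A)‖ := by congr 1; ring
      _ ≤ ‖W‖ + ‖W - A‖ := norm_sub_le _ _
      _ ≤ ‖W‖ + 1 := by linarith [hnorm.trans hbd]
  linarith

theorem coef_large (l : ℕ) (K : ℝ) : ∃ x : ℝ, 0 < x ∧ x ≤ 1 ∧ K ≤ ∑' m, coef l x m := by
  -- partial sums of the harmonic series are unbounded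
  have h1 := Real.tendsto_sum_range_one_div_nat_succ_atTop
  obtain ⟨N, hN⟩ := (h1.eventually (eventually_gt_atTop (K + 3))).exists
  set g : ℝ → ℝ := fun x => ∑ i ∈ Finset.range N, 1 / ((i : ℝ) + 1) ^ (1 + x) with hg
  have hgc : ContinuousAt g 0 := by
    apply ContinuousAt.congr _ (Eventually.of_forall fun _ => rfl)
    apply tendsto_finsetSum
    intro i _
    have hi : (0 : ℝ) < (i : ℝ) + 1 := by positivity
    apply ContinuousAt.div continuousAt_const
    · exact ContinuousAt.rpow continuousAt_const (by fun_prop) (Or.inl hi.ne')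
    · positivity
  have hg0 : K + 3 < g 0 := by
    simp only [hg, add_zero, Real.rpow_one]
    exact hN
  have hev : ∀ᶠ x in 𝓝 (0 : ℝ), K + 3 < g x := hgc.eventually (lt_mem_nhds hg0)
  obtain ⟨δ, hδ, hδ'⟩ := Metric.eventually_nhds_iff.mp hev
  set x : ℝ := min (δ / 2) 1 with hx
  have hx0 : 0 < x := lt_min (by positivity) one_pos
  refine ⟨x, hx0, min_le_right _ _, ?_⟩
  have hgx : K + 3 < g x := by
    apply hδ'
    rw [Real.dist_eq, sub_zero, abs_of_pos hx0]
    have := min_le_left (δ / 2) 1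
    linarith
  have hs := coef_summable l hx0
  have hcomp : ∀ i : ℕ, 1 / ((i : ℝ) + 1) ^ (1 + x) - (if i = 0 then 1 else 0) -
      (if i = 1 then 1 else 0) ≤ coef l x (i + 1) := by
    intro i
    have hcn := coef_nonneg l x (i + 1)
    have hi : (0 : ℝ) < (i : ℝ) + 1 := by positivity
    have hle1 : 1 / ((i : ℝ) + 1) ^ (1 + x) ≤ 1 := by
      rw [div_le_one (by positivity)]
      exact Real.one_le_rpow (by linarith [i.cast_nonneg (α := ℝ)]) (by linarith)
    rcases i with _ | _ | i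
    · simp at hle1 hcn ⊢; linarith
    · simp only [Nat.zero_add, Nat.cast_one] at *
      simp only [one_ne_zero, if_false, sub_zero, if_true]
      norm_num at hle1 hcn ⊢
      linarith
    · simp only [Nat.add_eq_zero_iff, one_ne_zero, and_false, if_false, sub_zero]
      have h2 : ¬ (i + 1 + 1 = 1) := by omega
      rw [if_neg h2, sub_zero]
      unfold coef
      push_cast
      have hlog : 1 ≤ Real.log ((i : ℝ) + 1 + 1 + 1) := by
        rw [Real.le_log_iff_exp_le (by positivity)]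
        have := Real.exp_one_lt_d9
        have := i.cast_nonneg (α := ℝ)
        linarith
      gcongr
      exact one_le_pow₀ hlog
  have hs1 : Summable (fun i => coef l x (i + 1)) := (summable_nat_add_iff 1).mpr hs
  have hA : ∑' i, coef l x (i + 1) ≤ ∑' m, coef l x m := by
    rw [hs.tsum_eq_zero_add]
    linarith [coef_nonneg l x 0]
  have hfin : ∑ i ∈ Finset.range N, coef l x (i + 1) ≤ ∑' i, coef l x (i + 1) :=
    hs1.sum_le_tsum _ fun m _ => coef_nonneg _ _ _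
  have h3 : g x - 1 - 1 ≤ ∑ i ∈ Finset.range N, coef l x (i + 1) := by
    have h4 : ∑ i ∈ Finset.range N, (1 / ((i : ℝ) + 1) ^ (1 + x) - (if i = 0 then 1 else 0) -
        (if i = 1 then 1 else 0)) ≤ ∑ i ∈ Finset.range N, coef l x (i + 1) :=
      Finset.sum_le_sum fun i _ => hcomp i
    rw [Finset.sum_sub_distrib, Finset.sum_sub_distrib] at h4
    have h5 : ∑ i ∈ Finset.range N, (if i = 0 then (1 : ℝ) else 0) ≤ 1 := by
      rw [Finset.sum_ite_eq']
      split_ifs <;> norm_num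
    have h6 : ∑ i ∈ Finset.range N, (if i = 1 then (1 : ℝ) else 0) ≤ 1 := by
      rw [Finset.sum_ite_eq']
      split_ifs <;> norm_num
    have h7 : g x = ∑ i ∈ Finset.range N, 1 / ((i : ℝ) + 1) ^ (1 + x) := rfl
    rw [← h7] at h4
    linarith
  linarith

theorem lower_fixed {l : ℕ} (hl : 1 ≤ l) (K : ℝ) : ∃ T0 : ℝ, ∀ T ≥ T0, ∀ M : ℝ, 1 ≤ M →
    (∀ t : ℝ, T ≤ t → t ≤ 2 * T → ‖iteratedDeriv l riemannZeta (1 + t * I)‖ ≤ M) →
    K ≤ M := by
  obtain ⟨x, hx0, hx1, hx2⟩ := coef_large l (2 * K + 1)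
  obtain ⟨L, hL, hLT⟩ := large_at hx0 hx2
  refine ⟨max (max 1000 (4 * L)) ((100 * ((l : ℝ) + 1)) ^ 2), fun T hT M hM hb => ?_⟩
  have hT1 : 1000 ≤ T := ((le_max_left _ _).trans (le_max_left _ _)).trans hT
  have hT2 : 4 * L ≤ T := ((le_max_right _ _).trans (le_max_left _ _)).trans hT
  have hT3 : (100 * ((l : ℝ) + 1)) ^ 2 ≤ T := (le_max_right _ _).trans hT
  have hlT : 100 * ((l : ℝ) + 1) ≤ √T := Real.le_sqrt_of_sq_le hT3
  obtain ⟨τ, h1, h2, h3⟩ := hLT (5 / 4 * T)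
  have h4 := transfer hl hT1 hlT hM hb hx0 hx1 h1 (by linarith)
  linarith

end Pool.Agent.Lib.MP_fcf965_nt
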