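import Mathlib
import Pool.Agent.Lib.MP_fcf965_nt.L2
import Pool.Agent.Lib.MP_fcf965_nt.Transfer

open Complex Set Filter Topology MeasureTheory

namespace Pool.Agent.Lib.MP_fcf965_nt

theorem factorial_upper {l : ℕ} (hl : 1 ≤ l) :
    (l.factorial : ℝ) ≤ Real.exp 1 * l * ((l : ℝ) / Real.exp 1) ^ l := by
  obtain ⟨n, rfl⟩ : ∃ n, l = n + 1 := ⟨l - 1, by omega⟩
  have h := Stirling.stirlingSeq'_antitone (Nat.zero_le n)
  simp only [Function.comp_apply, Nat.succ_eq_add_one, zero_add] at h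
  rw [Stirling.stirlingSeq_one] at h
  unfold Stirling.stirlingSeq at h
  have hpos : (0 : ℝ) < ((n + 1 : ℕ) : ℝ) := by positivity
  have h1 : (0 : ℝ) < √(2 * ((n + 1 : ℕ) : ℝ)) * (((n + 1 : ℕ) : ℝ) / Real.exp 1) ^ (n + 1) := by
    positivity
  rw [div_le_iff₀ h1] at h
  refine h.trans ?_
  have h2 : √(2 * ((n + 1 : ℕ) : ℝ)) ≤ √2 * ((n + 1 : ℕ) : ℝ) := by
    rw [Real.sqrt_mul (by norm_num)]
    gcongr
    rw [Real.sqrt_le_left (by positivity)]
    have : (1 : ℝ) ≤ ((n + 1 : ℕ) : ℝ) := by push_cast; linarith [n.cast_nonneg (α := ℝ)]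
    nlinarith
  calc Real.exp 1 / √2 * (√(2 * ((n + 1 : ℕ) : ℝ)) * (((n + 1 : ℕ) : ℝ) / Real.exp 1) ^ (n + 1))
      ≤ Real.exp 1 / √2 * ((√2 * ((n + 1 : ℕ) : ℝ)) *
        (((n + 1 : ℕ) : ℝ) / Real.exp 1) ^ (n + 1)) := by gcongr
    _ = _ := by field_simp

theorem succ_le_two_pow (l : ℕ) : (l : ℝ) + 1 ≤ 2 ^ l := by
  have := Nat.lt_two_pow_self (n := l)
  exact_mod_cast this

theorem exp_nat_le (l : ℕ) : Real.exp l ≤ 3 ^ l := by
  have h : Real.exp l = Real.exp 1 ^ l := by rw [← Real.exp_nat_mul]; simp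
  rw [h]
  have := Real.exp_one_lt_d9
  gcongr
  linarith

/-- lower bound in the range of large `l` -/
theorem lower_raw {l : ℕ} (hl : 1 ≤ l) {T M : ℝ} (hT : (1000 : ℝ) ^ (l + 2) ≤ T) (hM : 1 ≤ M)
    (hb : ∀ t : ℝ, T ≤ t → t ≤ 2 * T → ‖iteratedDeriv l riemannZeta (1 + t * I)‖ ≤ M) :
    (l : ℝ) ^ l * Real.exp (-(3 / 4) * l) / 64 ≤ M := by
  have hl1 : (1 : ℝ) ≤ l := by exact_mod_cast hl
  have h1000 : (1000 : ℝ) ≤ T := by
    refine le_trans ?_ hT
    calc (1000 : ℝ) = 1000 ^ 1 := by norm_num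
      _ ≤ 1000 ^ (l + 2) := by gcongr <;> [norm_num; omega]
  have hTpos : 0 < T := by linarith
  have hpow : (1000 : ℝ) ^ (l + 2) = 10 ^ 6 * 1000 ^ l := by rw [pow_add]; norm_num; ring
  rw [hpow] at hT
  have h2l := succ_le_two_pow l
  have hlT : 100 * ((l : ℝ) + 1) ≤ √T := by
    apply Real.le_sqrt_of_sq_le
    calc (100 * ((l : ℝ) + 1)) ^ 2 ≤ (100 * 2 ^ l) ^ 2 := by gcongr
      _ = 10 ^ 4 * 4 ^ l := by rw [mul_pow, ← pow_mul, mul_comm l 2, pow_mul]; norm_num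
      _ ≤ 10 ^ 6 * 1000 ^ l := by gcongr <;> norm_num
      _ ≤ T := hT
  set E : ℝ := Real.exp l with hE
  have hEpos : 0 < E := Real.exp_pos _
  have hE1 : 1 ≤ E := Real.one_le_exp (by positivity)
  have hE3 : E ≤ 3 ^ l := exp_nat_le l
  set N : ℕ := ⌈E⌉₊ with hN
  have hN1 : E ≤ N := Nat.le_ceil _
  have hN2 : (N : ℝ) ≤ 2 * E := by
    have := Nat.ceil_lt_add_one hEpos.le
    linarith
  have hNpos : 1 ≤ N := by
    have : (1 : ℝ) ≤ N := hE1.trans hN1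
    exact_mod_cast this
  have hNR : (0 : ℝ) < N := by exact_mod_cast hNpos
  set q : ℝ := Real.exp ((l : ℝ) / 2) with hq
  have hqpos : 0 < q := Real.exp_pos _
  have hqq : q * q = E := by rw [hq, hE, ← Real.exp_add]; congr 1; ring
  have hq1 : 1 ≤ q := Real.one_le_exp (by positivity)
  have hx : (0 : ℝ) < 1 / 4 := by norm_num
  have hdual := duality (l := l) hx hNpos (a := 5 / 4 * T) (b := 3 / 2 * T) (lam := q)
    (S := 2 * M) (by positivity) (by linarith) hqpos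
    (fun t h1 h2 => transfer hl h1000 hlT hM hb hx (by norm_num) h1 h2)
  have hba : 3 / 2 * T - 5 / 4 * T = T / 4 := by ring
  rw [hba] at hdual
  -- coefficient bound
  set cm : ℝ := (l : ℝ) ^ l / (8 * Real.exp (5 / 4 * l)) with hcm
  have hcmpos : 0 < cm := by positivity
  have hcoef : ∀ n ∈ Finset.Ioc N (2 * N), cm ≤ coef l (1 / 4) n := by
    intro n hn
    rw [Finset.mem_Ioc] at hn
    have hn1 : (N : ℝ) ≤ n := by exact_mod_cast hn.1.le
    have hn2 : (n : ℝ) ≤ 2 * N := by exact_mod_cast hn.2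
    have hnpos : (0 : ℝ) < n := hNR.trans_le hn1
    unfold coef
    rw [hcm]
    have h1 : (l : ℝ) ≤ Real.log n := by
      rw [Real.le_log_iff_exp_le hnpos]
      exact hN1.trans hn1
    have h2 : (n : ℝ) ^ (1 + 1 / 4 : ℝ) ≤ 8 * Real.exp (5 / 4 * l) := by
      calc (n : ℝ) ^ (1 + 1 / 4 : ℝ) ≤ (4 * E) ^ (1 + 1 / 4 : ℝ) := by
            apply Real.rpow_le_rpow hnpos.le (by linarith) (by norm_num)
        _ = 4 ^ (1 + 1 / 4 : ℝ) * Real.exp (5 / 4 * l) := by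
            rw [Real.mul_rpow (by norm_num) hEpos.le, hE, ← Real.exp_mul]
            congr 2; ring
        _ ≤ 8 * Real.exp (5 / 4 * l) := by
            gcongr
            have h3 : (4 : ℝ) ^ (1 + 1 / 4 : ℝ) ≤ 4 ^ (3 / 2 : ℝ) :=
              Real.rpow_le_rpow_of_exponent_le (by norm_num) (by norm_num)
            have h4 : (4 : ℝ) ^ (3 / 2 : ℝ) = 8 := by
              rw [show (4 : ℝ) = 2 ^ (2 : ℝ) by norm_num, ← Real.rpow_mul (by norm_num)]
              norm_num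
            linarith
    gcongr
  have hsumlow : (N : ℝ) * cm ≤ ∑ n ∈ Finset.Ioc N (2 * N), coef l (1 / 4) n := by
    have hcard : (Finset.Ioc N (2 * N)).card = N := by rw [Nat.card_Ioc]; omega
    calc (N : ℝ) * cm = ∑ n ∈ Finset.Ioc N (2 * N), cm := by
          rw [Finset.sum_const, hcard, nsmul_eq_mul]
      _ ≤ _ := Finset.sum_le_sum hcoef
  set A := ∑' m, coef l (1 / 4) m with hA
  have hAle : A ≤ 3 * ((l : ℝ) + 1) * (l : ℝ) ^ l * 4 ^ (l + 1) := by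
    have h1 := tsum_logpow_le hl hx
    have h2 : ((l + 1).factorial : ℝ) ≤ ((l : ℝ) + 1) * (l : ℝ) ^ l := by
      rw [Nat.factorial_succ]
      push_cast
      gcongr
      exact_mod_cast Nat.factorial_le_pow l
    calc A ≤ Real.exp 1 * ((l + 1).factorial : ℝ) / (1 / 4) ^ (l + 1) := h1
      _ = Real.exp 1 * ((l + 1).factorial : ℝ) * 4 ^ (l + 1) := by
          rw [one_div, inv_pow, div_inv_eq_mul]
      _ ≤ 3 * (((l : ℝ) + 1) * (l : ℝ) ^ l) * 4 ^ (l + 1) := by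
          gcongr
          have := Real.exp_one_lt_d9
          linarith
      _ = _ := by ring
  have hAnn : 0 ≤ A := tsum_nonneg fun m => coef_nonneg _ _ _
  have hcond : 2 * (2 * (N : ℝ) + 1) * A ≤ cm * T / 8 := by
    have h1 : 2 * (2 * (N : ℝ) + 1) ≤ 10 * E := by linarith
    have h3 : Real.exp (5 / 4 * (l : ℝ)) ≤ E * E := by
      rw [hE, ← Real.exp_add]
      apply Real.exp_le_exp.mpr
      linarith
    calc 2 * (2 * (N : ℝ) + 1) * A ≤ 10 * E * (3 * ((l : ℝ) + 1) * (l : ℝ) ^ l * 4 ^ (l + 1)) := by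
          gcongr
      _ = (l : ℝ) ^ l / (8 * Real.exp (5 / 4 * l)) *
            (8 * Real.exp (5 / 4 * l) * (10 * E * (3 * ((l : ℝ) + 1) * 4 ^ (l + 1)))) := by
          field_simp
      _ ≤ (l : ℝ) ^ l / (8 * Real.exp (5 / 4 * l)) * (T / 8) := by
          gcongr
          calc 8 * Real.exp (5 / 4 * l) * (10 * E * (3 * ((l : ℝ) + 1) * 4 ^ (l + 1)))
              ≤ 8 * (E * E) * (10 * E * (3 * (2 ^ l) * 4 ^ (l + 1))) := by gcongr
            _ = 960 * (E * E * E) * (2 ^ l * 4 ^ l) := by rw [pow_succ]; ring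
            _ ≤ 960 * (3 ^ l * 3 ^ l * 3 ^ l) * (2 ^ l * 4 ^ l) := by gcongr
            _ = 960 * 216 ^ l := by
                rw [← mul_pow, ← mul_pow, ← mul_pow, mul_assoc, ← mul_pow]; norm_num
            _ ≤ (10 ^ 6 * 1000 ^ l) / 8 := by
                have : (216 : ℝ) ^ l ≤ 1000 ^ l := by gcongr; norm_num
                have h0 : (0 : ℝ) ≤ 216 ^ l := by positivity
                linarith
            _ ≤ T / 8 := by gcongr
      _ = cm * T / 8 := by rw [hcm]; ring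
  have hLHS : E * cm * T / 8 ≤ (∑ n ∈ Finset.Ioc N (2 * N), coef l (1 / 4) n) * (T / 4) -
      N * (2 * (2 * (N : ℝ) + 1)) * A := by
    have h1 : (N : ℝ) * cm * (T / 4) ≤
        (∑ n ∈ Finset.Ioc N (2 * N), coef l (1 / 4) n) * (T / 4) := by gcongr
    have h2 : (N : ℝ) * (2 * (2 * (N : ℝ) + 1) * A) ≤ N * (cm * T / 8) := by gcongr
    have h3 : E * (cm * T / 8) ≤ N * (cm * T / 8) := by gcongr
    nlinarith
  have hRHS : 2 * M * ((q * (T / 4) + (N * (T / 4) + (N : ℝ) ^ 2 * (2 * (2 * (N : ℝ) + 1))) / q)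
      / 2) ≤ M * (q * T) := by
    have h1 : (N : ℝ) ^ 2 * (2 * (2 * (N : ℝ) + 1)) ≤ E * T / 4 := by
      have h0 : 2 * (2 * (N : ℝ) + 1) ≤ 10 * E := by linarith
      calc (N : ℝ) ^ 2 * (2 * (2 * (N : ℝ) + 1)) ≤ (2 * E) ^ 2 * (10 * E) :=
            mul_le_mul (pow_le_pow_left₀ hNR.le hN2 2) h0 (by positivity) (by positivity)
        _ = 40 * (E * E) * E := by ring
        _ ≤ 40 * (3 ^ l * 3 ^ l) * E := by gcongr
        _ = E * (160 * 9 ^ l) / 4 := by rw [← mul_pow]; norm_num; ring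
        _ ≤ E * (10 ^ 6 * 1000 ^ l) / 4 := by gcongr <;> norm_num
        _ ≤ E * T / 4 := by gcongr
    have h2 : (N * (T / 4) + (N : ℝ) ^ 2 * (2 * (2 * (N : ℝ) + 1))) / q ≤ 3 / 4 * (q * T) := by
      rw [div_le_iff₀ hqpos]
      calc N * (T / 4) + (N : ℝ) ^ 2 * (2 * (2 * (N : ℝ) + 1)) ≤ 2 * E * (T / 4) + E * T / 4 := by
            gcongr
        _ = 3 / 4 * ((q * q) * T) := by rw [hqq]; ring
        _ = 3 / 4 * (q * T) * q := by ring
    have h3 : q * (T / 4) + (N * (T / 4) + (N : ℝ) ^ 2 * (2 * (2 * (N : ℝ) + 1))) / q ≤ q * T := by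
      linarith
    calc 2 * M * ((q * (T / 4) + (N * (T / 4) + (N : ℝ) ^ 2 * (2 * (2 * (N : ℝ) + 1))) / q) / 2)
        = M * (q * (T / 4) + (N * (T / 4) + (N : ℝ) ^ 2 * (2 * (2 * (N : ℝ) + 1))) / q) := by ring
      _ ≤ M * (q * T) := by gcongr
  have hfin : E * cm * T / 8 ≤ M * (q * T) := hLHS.trans (hdual.trans hRHS)
  have hfin2 : q * cm / 8 ≤ M := by
    have h1 : (q * cm / 8) * (q * T) ≤ M * (q * T) := by
      calc (q * cm / 8) * (q * T) = (q * q) * cm * T / 8 := by ring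
        _ ≤ M * (q * T) := by rw [hqq]; exact hfin
    exact le_of_mul_le_mul_right h1 (by positivity)
  calc (l : ℝ) ^ l * Real.exp (-(3 / 4) * l) / 64 = q * cm / 8 := by
        have h1 : Real.exp (-(3 / 4) * (l : ℝ)) = q / Real.exp (5 / 4 * l) := by
          rw [hq, ← Real.exp_sub]; congr 1; ring
        rw [h1, hcm]
        field_simp
        ring
    _ ≤ M := hfin2

theorem lower_large (K : ℝ) (hK : 0 < K) : ∃ l0 : ℕ, ∀ l ≥ l0, ∀ T M : ℝ,
    (1000 : ℝ) ^ (l + 2) ≤ T → 1 ≤ M →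
    (∀ t : ℝ, T ≤ t → t ≤ 2 * T → ‖iteratedDeriv l riemannZeta (1 + t * I)‖ ≤ M) →
    K * (5 / 4) ^ (l + 2) * ((l + 2).factorial : ℝ) ≤ M := by
  set r : ℝ := 5 / 4 * Real.exp (-(1 / 4)) with hr
  have hr0 : 0 < r := by positivity
  have hr1 : r < 1 := by
    have h1 : (5 / 4 : ℝ) < Real.exp (1 / 4) := by
      have h2 : (5 / 4 : ℝ) ^ 4 < Real.exp (1 / 4) ^ 4 := by
        rw [← Real.exp_nat_mul]
        have := Real.exp_one_gt_d9
        norm_num
        linarith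
      exact lt_of_pow_lt_pow_left₀ 4 (Real.exp_pos _).le h2
    rw [hr, Real.exp_neg, mul_inv_lt_iff₀ (Real.exp_pos _)]
    linarith
  have ht := tendsto_pow_const_mul_const_pow_of_abs_lt_one 3 (r := r)
    (by rw [abs_of_pos hr0]; exact hr1)
  have ht2 : Tendsto (fun n : ℕ => (K * (25 / 16) * 6 * Real.exp 1 * 64) * ((n : ℝ) ^ 3 * r ^ n))
      atTop (𝓝 0) := by
    have := ht.const_mul (K * (25 / 16) * 6 * Real.exp 1 * 64)
    simpa using this
  have hev := ht2.eventually (gt_mem_nhds (show (0 : ℝ) < 1 by norm_num))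
  obtain ⟨l0, hl0⟩ := eventually_atTop.mp hev
  refine ⟨max l0 1, fun l hl T M hT hM hb => ?_⟩
  have hl1 : 1 ≤ l := (le_max_right _ _).trans hl
  have hl1' : (1 : ℝ) ≤ l := by exact_mod_cast hl1
  have h := hl0 l ((le_max_left _ _).trans hl)
  refine le_trans ?_ (lower_raw hl1 hT hM hb)
  have hf := factorial_upper hl1
  have hfac : ((l + 2).factorial : ℝ) ≤ 6 * (l : ℝ) ^ 3 * Real.exp 1 *
      ((l : ℝ) ^ l * Real.exp (-(l : ℝ))) := by
    have h1 : ((l + 2).factorial : ℝ) = ((l : ℝ) + 2) * (((l : ℝ) + 1) * (l.factorial : ℝ)) := by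
      rw [Nat.factorial_succ, Nat.factorial_succ]; push_cast; ring
    have h2 : ((l : ℝ) / Real.exp 1) ^ l = (l : ℝ) ^ l * Real.exp (-(l : ℝ)) := by
      rw [div_pow, ← Real.exp_nat_mul, Real.exp_neg, div_eq_mul_inv]
      simp
    rw [h1, ← h2]
    calc ((l : ℝ) + 2) * (((l : ℝ) + 1) * (l.factorial : ℝ))
        ≤ ((l : ℝ) + 2) * (((l : ℝ) + 1) *
          (Real.exp 1 * l * ((l : ℝ) / Real.exp 1) ^ l)) := by gcongr
      _ = (((l : ℝ) + 2) * ((l : ℝ) + 1) * l) * Real.exp 1 * ((l : ℝ) / Real.exp 1) ^ l := by ring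
      _ ≤ (6 * (l : ℝ) ^ 3) * Real.exp 1 * ((l : ℝ) / Real.exp 1) ^ l := by
          have h3 : ((l : ℝ) + 2) * ((l : ℝ) + 1) * l ≤ 6 * (l : ℝ) ^ 3 := by
            have h4 : ((l : ℝ) + 2) * ((l : ℝ) + 1) ≤ (3 * l) * (2 * l) := by
              apply mul_le_mul <;> linarith
            calc ((l : ℝ) + 2) * ((l : ℝ) + 1) * l ≤ (3 * l) * (2 * l) * l := by gcongr
              _ = 6 * (l : ℝ) ^ 3 := by ring
          exact mul_le_mul_of_nonneg_right (mul_le_mul_of_nonneg_right h3 (Real.exp_pos 1).le)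
            (by positivity)
      _ = _ := by ring
  have hexp : Real.exp (-(3 / 4) * (l : ℝ)) = Real.exp (-(l : ℝ)) * (Real.exp (1 / 4)) ^ l := by
    rw [← Real.exp_nat_mul, ← Real.exp_add]; congr 1; ring
  have hrl : r ^ l * (Real.exp (1 / 4)) ^ l = (5 / 4) ^ l := by
    rw [← mul_pow, hr, mul_assoc, ← Real.exp_add]; simp
  calc K * (5 / 4) ^ (l + 2) * ((l + 2).factorial : ℝ)
      ≤ K * (5 / 4) ^ (l + 2) * (6 * (l : ℝ) ^ 3 * Real.exp 1 *
      ((l : ℝ) ^ l * Real.exp (-(l : ℝ)))) := by gcongr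
    _ = (K * (25 / 16) * 6 * Real.exp 1 * 64) * ((l : ℝ) ^ 3 * r ^ l) *
        ((l : ℝ) ^ l * (Real.exp (-(l : ℝ)) * (Real.exp (1 / 4)) ^ l) / 64) := by
        rw [pow_add, ← hrl]; ring
    _ ≤ 1 * ((l : ℝ) ^ l * (Real.exp (-(l : ℝ)) * (Real.exp (1 / 4)) ^ l) / 64) := by
        gcongr
    _ = (l : ℝ) ^ l * Real.exp (-(3 / 4) * l) / 64 := by rw [hexp]; ring

end Pool.Agent.Lib.MP_fcf965_nt
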