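import Mathlib
import Pool.Agent.Lib.MP_fcf965_nt.LB
import Pool.Agent.Lib.MP_fcf965_nt.Fixed

open Complex Set Filter Topology MeasureTheory

namespace Pool.Agent.Lib.MP_fcf965_nt

/-- uniform lower bound -/
theorem lower_uniform (K : ℝ) (hK : 0 < K) : ∃ T0 : ℝ, ∀ T ≥ T0, ∀ l : ℕ, 1 ≤ l →
    ((l : ℝ) + 1 ≤ Real.log T / Real.log (Real.log T)) → ∀ M : ℝ, 1 ≤ M →
    (∀ t : ℝ, T ≤ t → t ≤ 2 * T → ‖iteratedDeriv l riemannZeta (1 + t * I)‖ ≤ M) →
    K * (5 / 4) ^ (l + 2) * ((l + 2).factorial : ℝ) ≤ M := by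
  obtain ⟨l0, hl0⟩ := lower_large K hK
  have hfix : ∀ l : ℕ, ∃ T0 : ℝ, 1 ≤ l → ∀ T ≥ T0, ∀ M : ℝ, 1 ≤ M →
      (∀ t : ℝ, T ≤ t → t ≤ 2 * T → ‖iteratedDeriv l riemannZeta (1 + t * I)‖ ≤ M) →
      K * (5 / 4) ^ (l + 2) * ((l + 2).factorial : ℝ) ≤ M := by
    intro l
    by_cases hl : 1 ≤ l
    · obtain ⟨T0, hT0⟩ := lower_fixed hl (K * (5 / 4) ^ (l + 2) * ((l + 2).factorial : ℝ))
      exact ⟨T0, fun _ => hT0⟩
    · exact ⟨0, fun h => absurd h hl⟩
  choose Tf hTf using hfix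
  obtain ⟨C, hC⟩ : ∃ C : ℝ, ∀ l ∈ Finset.range l0, Tf l ≤ C := by
    refine ⟨∑ l ∈ Finset.range l0, |Tf l|, fun l hl => ?_⟩
    refine (le_abs_self _).trans ?_
    exact Finset.single_le_sum (f := fun l => |Tf l|) (fun i _ => abs_nonneg _) hl
  refine ⟨max C (Real.exp (Real.exp 14)), fun T hT l hl hlT M hM hb => ?_⟩
  have hT1 : C ≤ T := (le_max_left _ _).trans hT
  have hT2 : Real.exp (Real.exp 14) ≤ T := (le_max_right _ _).trans hT
  by_cases h : l < l0
  · exact hTf l hl T ((hC l (Finset.mem_range.mpr h)).trans hT1) M hM hb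
  · push Not at h
    refine hl0 l h T M ?_ hM hb
    have hTpos : 0 < T := (Real.exp_pos _).trans_le hT2
    have hlog : Real.exp 14 ≤ Real.log T := (Real.le_log_iff_exp_le hTpos).mpr hT2
    have hlogpos : 0 < Real.log T := (Real.exp_pos _).trans_le hlog
    have hloglog : 14 ≤ Real.log (Real.log T) := (Real.le_log_iff_exp_le hlogpos).mpr hlog
    have h1000 : Real.log 1000 ≤ 7 := by
      rw [Real.log_le_iff_le_exp (by norm_num)]
      have h7 : Real.exp 7 = Real.exp 1 ^ 7 := by rw [← Real.exp_nat_mul]; norm_num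
      rw [h7]
      have := Real.exp_one_gt_d9
      calc (1000 : ℝ) ≤ 2.7 ^ 7 := by norm_num
        _ ≤ Real.exp 1 ^ 7 := by gcongr; linarith
    have h1000p : 0 < Real.log 1000 := Real.log_pos (by norm_num)
    rw [le_div_iff₀ (by linarith)] at hlT
    have hl1 : (1 : ℝ) ≤ l := by exact_mod_cast hl
    have h3 : ((l + 2 : ℕ) : ℝ) * Real.log 1000 ≤ Real.log T := by
      push_cast
      calc ((l : ℝ) + 2) * Real.log 1000 ≤ (2 * ((l : ℝ) + 1)) * 7 := by
            apply mul_le_mul _ h1000 h1000p.le (by positivity)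
            linarith
        _ = ((l : ℝ) + 1) * 14 := by ring
        _ ≤ ((l : ℝ) + 1) * Real.log (Real.log T) := by gcongr
        _ ≤ Real.log T := hlT
    have h4 : (1000 : ℝ) ^ (l + 2) = Real.exp (((l + 2 : ℕ) : ℝ) * Real.log 1000) := by
      rw [Real.exp_nat_mul, Real.exp_log (by norm_num)]
    rw [h4, ← Real.exp_log hTpos]
    exact Real.exp_le_exp.mpr h3

theorem step_up {l : ℕ} (hl : 1 ≤ l) {T M t0 : ℝ} (hT : 2000 ≤ T)
    (hlT : 20 * ((l : ℝ) + 2) + 2 ≤ T)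
    (hM : Real.exp 101 * (5 / 4) ^ (l + 2) * ((l + 2).factorial : ℝ) ≤ M)
    (h0 : ∀ t : ℝ, T ≤ t → t ≤ 2 * T → ‖iteratedDeriv l riemannZeta (1 + t * I)‖ ≤ M)
    (h1 : ∀ t : ℝ, T ≤ t → t ≤ 2 * T → ‖iteratedDeriv (l + 1) riemannZeta (1 + t * I)‖ ≤ M)
    (ht0 : T ≤ t0) (ht0' : t0 ≤ 3 / 2 * T) :
    ‖iteratedDeriv l riemannZeta (1 + t0 * I)‖ ≤ 97 / 100 * M := by
  have hne : ∀ w : ℂ, 0 ≤ w.im → 1 + t0 * I + w ≠ 1 := by
    intro w hw h
    have := congrArg Complex.im h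
    simp at this
    linarith
  have hB1 : Real.exp 1 * ((l + 2).factorial : ℝ) * (5 / 4) ^ (l + 2) * Real.exp 100 ≤ M := by
    refine le_trans (le_of_eq ?_) hM
    rw [show (101 : ℝ) = 1 + 100 by norm_num, Real.exp_add]; ring
  have key := up_lemma (F := fun z => iteratedDeriv l riemannZeta (1 + t0 * I + z))
    (F1 := fun z => iteratedDeriv (l + 1) riemannZeta (1 + t0 * I + z)) (m := l + 1)
    (R := T / 2) (M := M) (B0 := Real.exp 1 * ((l + 1).factorial : ℝ))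
    (B1 := Real.exp 1 * ((l + 2).factorial : ℝ)) (by omega) (by linarith)
    (by push_cast; linarith) (by positivity) (by positivity) ?_ hB1 ?_ ?_ ?_ ?_ ?_ ?_
  · simpa using key
  · refine le_trans ?_ hB1
    have h2 : ((l + 1).factorial : ℝ) ≤ ((l + 2).factorial : ℝ) := by
      exact_mod_cast Nat.factorial_le (by omega)
    have h3 : (5 / 4 : ℝ) ^ (l + 1) ≤ (5 / 4) ^ (l + 2) :=
      pow_le_pow_right₀ (by norm_num) (by omega)
    gcongr
  · intro z hz1 hz2 hz3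
    exact (hasDerivAt_zeta_iter l (hne z hz2)).comp_const_add (1 + t0 * I) z
  · intro z hz1 hz2 hz3
    exact ((hasDerivAt_zeta_iter (l + 1) (hne z hz2)).comp_const_add (1 + t0 * I) z).differentiableAt
  · intro z hz1 hz2 hz3
    have h4 : 1 + t0 * I + z = 1 + ((t0 + z.im : ℝ) : ℂ) * I := by
      apply Complex.ext <;> simp [hz1]
    simp only [h4]
    exact h0 _ (by linarith) (by linarith)
  · intro z hz1 hz2 hz3
    have h4 : 1 + t0 * I + z = 1 + ((t0 + z.im : ℝ) : ℂ) * I := by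
      apply Complex.ext <;> simp [hz1]
    simp only [h4]
    exact h1 _ (by linarith) (by linarith)
  · intro z hz1 hz2 hz3
    have h5 := norm_zeta_deriv_le hl (s := 1 + t0 * I + z) (by simp; linarith)
    simpa using h5
  · intro z hz1 hz2 hz3
    have h5 := norm_zeta_deriv_le (k := l + 1) (by omega) (s := 1 + t0 * I + z)
      (by simp; linarith)
    simpa using h5

theorem step_down {l : ℕ} (hl : 1 ≤ l) {T M t0 : ℝ} (hT : 2000 ≤ T)
    (hlT : 20 * ((l : ℝ) + 2) + 2 ≤ T)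
    (hM : Real.exp 101 * (5 / 4) ^ (l + 2) * ((l + 2).factorial : ℝ) ≤ M)
    (h0 : ∀ t : ℝ, T ≤ t → t ≤ 2 * T → ‖iteratedDeriv l riemannZeta (1 + t * I)‖ ≤ M)
    (h1 : ∀ t : ℝ, T ≤ t → t ≤ 2 * T → ‖iteratedDeriv (l + 1) riemannZeta (1 + t * I)‖ ≤ M)
    (ht0 : 3 / 2 * T ≤ t0) (ht0' : t0 ≤ 2 * T) :
    ‖iteratedDeriv l riemannZeta (1 + t0 * I)‖ ≤ 97 / 100 * M := by
  have hne : ∀ w : ℂ, 0 ≤ w.im → w.im ≤ T / 2 → 1 + t0 * I + (starRingEnd ℂ) w ≠ 1 := by
    intro w hw hw' h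
    have := congrArg Complex.im h
    simp at this
    linarith
  have hB1 : Real.exp 1 * ((l + 2).factorial : ℝ) * (5 / 4) ^ (l + 2) * Real.exp 100 ≤ M := by
    refine le_trans (le_of_eq ?_) hM
    rw [show (101 : ℝ) = 1 + 100 by norm_num, Real.exp_add]; ring
  have hder : ∀ k : ℕ, ∀ z : ℂ, 0 ≤ z.im → z.im ≤ T / 2 → HasDerivAt
      (fun z => (starRingEnd ℂ) (iteratedDeriv k riemannZeta (1 + t0 * I + (starRingEnd ℂ) z)))
      ((starRingEnd ℂ) (iteratedDeriv (k + 1) riemannZeta (1 + t0 * I + (starRingEnd ℂ) z))) z := by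
    intro k z hz2 hz3
    have h6 := (hasDerivAt_zeta_iter k (hne z hz2 hz3)).comp_const_add
      (1 + t0 * I) ((starRingEnd ℂ) z)
    have h7 := h6.conj_conj
    rw [Complex.conj_conj] at h7
    exact h7
  have key := up_lemma
    (F := fun z => (starRingEnd ℂ) (iteratedDeriv l riemannZeta (1 + t0 * I + (starRingEnd ℂ) z)))
    (F1 := fun z => (starRingEnd ℂ)
      (iteratedDeriv (l + 1) riemannZeta (1 + t0 * I + (starRingEnd ℂ) z))) (m := l + 1)
    (R := T / 2) (M := M) (B0 := Real.exp 1 * ((l + 1).factorial : ℝ))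
    (B1 := Real.exp 1 * ((l + 2).factorial : ℝ)) (by omega) (by linarith)
    (by push_cast; linarith) (by positivity) (by positivity) ?_ hB1 ?_ ?_ ?_ ?_ ?_ ?_
  · simpa using key
  · refine le_trans ?_ hB1
    have h2 : ((l + 1).factorial : ℝ) ≤ ((l + 2).factorial : ℝ) := by
      exact_mod_cast Nat.factorial_le (by omega)
    have h3 : (5 / 4 : ℝ) ^ (l + 1) ≤ (5 / 4) ^ (l + 2) :=
      pow_le_pow_right₀ (by norm_num) (by omega)
    gcongr
  · intro z hz1 hz2 hz3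
    exact hder l z hz2 hz3
  · intro z hz1 hz2 hz3
    exact (hder (l + 1) z hz2 hz3).differentiableAt
  · intro z hz1 hz2 hz3
    have h4 : 1 + t0 * I + (starRingEnd ℂ) z = 1 + ((t0 - z.im : ℝ) : ℂ) * I := by
      apply Complex.ext <;> simp [hz1, sub_eq_add_neg]
    simp only [h4, RCLike.norm_conj]
    exact h0 _ (by linarith) (by linarith)
  · intro z hz1 hz2 hz3
    have h4 : 1 + t0 * I + (starRingEnd ℂ) z = 1 + ((t0 - z.im : ℝ) : ℂ) * I := by
      apply Complex.ext <;> simp [hz1, sub_eq_add_neg]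
    simp only [h4, RCLike.norm_conj]
    exact h1 _ (by linarith) (by linarith)
  · intro z hz1 hz2 hz3
    have h5 := norm_zeta_deriv_le hl (s := 1 + t0 * I + (starRingEnd ℂ) z) (by simp; linarith)
    simpa using h5
  · intro z hz1 hz2 hz3
    have h5 := norm_zeta_deriv_le (k := l + 1) (by omega) (s := 1 + t0 * I + (starRingEnd ℂ) z)
      (by simp; linarith)
    simpa using h5

/-- the maximum -/
noncomputable def zmax (l : ℕ) (T : ℝ) : ℝ :=
  sSup ((fun t : ℝ => ‖iteratedDeriv l riemannZeta (1 + t * I)‖) '' Set.Icc T (2 * T))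

theorem zmax_spec (l : ℕ) {T : ℝ} (hT : 0 < T) :
    (∀ t : ℝ, T ≤ t → t ≤ 2 * T → ‖iteratedDeriv l riemannZeta (1 + t * I)‖ ≤ zmax l T) ∧
    ∃ t : ℝ, T ≤ t ∧ t ≤ 2 * T ∧ ‖iteratedDeriv l riemannZeta (1 + t * I)‖ = zmax l T := by
  have hcont : ContinuousOn (fun t : ℝ => ‖iteratedDeriv l riemannZeta (1 + t * I)‖)
      (Set.Icc T (2 * T)) := by
    intro t ht
    have hne : (1 : ℂ) + t * I ≠ 1 := by
      intro h
      have := congrArg Complex.im h
      simp at this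
      linarith [ht.1]
    have h1 := (hasDerivAt_zeta_iter l hne).continuousAt
    have h2 : ContinuousAt (fun t : ℝ => (1 : ℂ) + t * I) t := by fun_prop
    have h3 : ContinuousAt (fun t : ℝ => iteratedDeriv l riemannZeta (1 + t * I)) t :=
      ContinuousAt.comp (f := fun t : ℝ => (1 : ℂ) + t * I) h1 h2
    exact h3.norm.continuousWithinAt
  have hne : (Set.Icc T (2 * T)).Nonempty := ⟨T, le_rfl, by linarith⟩
  obtain ⟨t, ht, hmax⟩ := isCompact_Icc.exists_isMaxOn hne hcont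
  have hbdd : BddAbove ((fun t : ℝ => ‖iteratedDeriv l riemannZeta (1 + t * I)‖) ''
      Set.Icc T (2 * T)) := by
    refine ⟨‖iteratedDeriv l riemannZeta (1 + t * I)‖, ?_⟩
    rintro _ ⟨u, hu, rfl⟩
    exact hmax hu
  have hle : ∀ u : ℝ, T ≤ u → u ≤ 2 * T →
      ‖iteratedDeriv l riemannZeta (1 + u * I)‖ ≤ zmax l T :=
    fun u h1 h2 => le_csSup hbdd ⟨u, ⟨h1, h2⟩, rfl⟩
  refine ⟨hle, t, ht.1, ht.2, le_antisymm (hle t ht.1 ht.2) ?_⟩
  refine csSup_le (hne.image _) ?_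
  rintro _ ⟨u, hu, rfl⟩
  exact hmax hu

theorem main_step : ∃ T0 : ℝ, ∀ T ≥ T0, ∀ l : ℕ, 1 ≤ l →
    ((l : ℝ) + 1 ≤ Real.log T / Real.log (Real.log T)) → zmax l T < zmax (l + 1) T := by
  obtain ⟨T1, hT1⟩ := lower_uniform (Real.exp 101) (Real.exp_pos _)
  refine ⟨max T1 (Real.exp (Real.exp 14)), fun T hT l hl hlT => ?_⟩
  have hTT1 : T1 ≤ T := (le_max_left _ _).trans hT
  have hT2 : Real.exp (Real.exp 14) ≤ T := (le_max_right _ _).trans hT
  have hTpos : 0 < T := (Real.exp_pos _).trans_le hT2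
  have hlog : Real.exp 14 ≤ Real.log T := (Real.le_log_iff_exp_le hTpos).mpr hT2
  have hlogpos : 0 < Real.log T := (Real.exp_pos _).trans_le hlog
  have hloglog : 14 ≤ Real.log (Real.log T) := (Real.le_log_iff_exp_le hlogpos).mpr hlog
  have hexp14 : (2000 : ℝ) ≤ Real.exp 14 := by
    have h14 : Real.exp 14 = Real.exp 1 ^ 14 := by rw [← Real.exp_nat_mul]; norm_num
    rw [h14]
    have := Real.exp_one_gt_d9
    calc (2000 : ℝ) ≤ 2.7 ^ 14 := by norm_num
      _ ≤ Real.exp 1 ^ 14 := by gcongr; linarith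
  have hT2000 : 2000 ≤ T := by
    have := Real.log_le_sub_one_of_pos hTpos
    linarith
  have hl1 : (1 : ℝ) ≤ l := by exact_mod_cast hl
  have hlT' : 20 * ((l : ℝ) + 2) + 2 ≤ T := by
    rw [le_div_iff₀ (by linarith)] at hlT
    have h5 : ((l : ℝ) + 1) * 14 ≤ Real.log T :=
      le_trans (by gcongr) hlT
    -- log T ≤ 2 sqrt T
    have h6 : Real.log T ≤ T / 100 := by
      have h7 : Real.log (√T) ≤ √T := by
        have := Real.log_le_sub_one_of_pos (Real.sqrt_pos.mpr hTpos)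
        linarith
      rw [Real.log_sqrt hTpos.le] at h7
      have h8 : (200 : ℝ) ≤ √T := by
        apply Real.le_sqrt_of_sq_le
        have h9 : (2000 : ℝ) + 1 ≤ Real.exp 14 + 1 := by linarith
        have h10 : Real.exp 14 + 1 ≤ Real.exp (Real.exp 14) := Real.add_one_le_exp _
        have h11 : Real.exp (Real.exp 14) = Real.exp (Real.exp 14 / 2) ^ 2 := by
          rw [← Real.exp_nat_mul]; congr 1; push_cast; ring
        have h12 : (1000 : ℝ) ≤ Real.exp (Real.exp 14 / 2) := by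
          have := Real.add_one_le_exp (Real.exp 14 / 2)
          linarith
        have h13 : (1000 : ℝ) ^ 2 ≤ Real.exp (Real.exp 14 / 2) ^ 2 := by gcongr
        rw [← h11] at h13
        linarith
      have h14 : √T * √T = T := Real.mul_self_sqrt hTpos.le
      nlinarith
    nlinarith
  obtain ⟨hle, t0, ht1, ht2, hteq⟩ := zmax_spec l hTpos
  obtain ⟨hle', -⟩ := zmax_spec (l + 1) hTpos
  have hlow : Real.exp 101 * (5 / 4) ^ (l + 2) * ((l + 2).factorial : ℝ) ≤ zmax l T := by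
    have h1 := hT1 T hTT1 l hl hlT (max (zmax l T) 1) (le_max_right _ _)
      (fun t h1 h2 => (hle t h1 h2).trans (le_max_left _ _))
    have h2 : (1 : ℝ) < Real.exp 101 * (5 / 4) ^ (l + 2) * ((l + 2).factorial : ℝ) := by
      have h3 : (1 : ℝ) < Real.exp 101 := Real.one_lt_exp_iff.mpr (by norm_num)
      have h4 : (1 : ℝ) ≤ (5 / 4) ^ (l + 2) := one_le_pow₀ (by norm_num)
      have h5 : (1 : ℝ) ≤ ((l + 2).factorial : ℝ) := by
        exact_mod_cast Nat.one_le_iff_ne_zero.mpr (Nat.factorial_ne_zero _)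
      calc (1 : ℝ) < Real.exp 101 := h3
        _ = Real.exp 101 * 1 * 1 := by ring
        _ ≤ _ := by gcongr
    rcases le_max_iff.mp h1 with h | h
    · exact h
    · linarith
  have hpos : 0 < zmax l T := lt_of_lt_of_le (by positivity) hlow
  by_contra hcon
  push Not at hcon
  have h97 : ‖iteratedDeriv l riemannZeta (1 + t0 * I)‖ ≤ 97 / 100 * zmax l T := by
    rcases le_total t0 (3 / 2 * T) with h | h
    · exact step_up hl hT2000 hlT' hlow hle (fun t h1 h2 => (hle' t h1 h2).trans hcon) ht1 h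
    · exact step_down hl hT2000 hlT' hlow hle (fun t h1 h2 => (hle' t h1 h2).trans hcon) h ht2
  rw [hteq] at h97
  linarith

theorem main_mono : ∃ T0 : ℝ, ∀ T ≥ T0, ∀ l1 l2 : ℕ, 1 ≤ l1 → l1 < l2 →
    (l2 : ℝ) ≤ Real.log T / Real.log (Real.log T) → zmax l1 T < zmax l2 T := by
  obtain ⟨T0, hT0⟩ := main_step
  refine ⟨T0, fun T hT l1 l2 h1 h12 hl2 => ?_⟩
  induction l2, h12 using Nat.le_induction with
  | base =>
    exact hT0 T hT l1 h1 (by push_cast at hl2; exact hl2)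
  | succ n hn ih =>
    have h3 : (n : ℝ) ≤ Real.log T / Real.log (Real.log T) := by
      push_cast at hl2; linarith
    have hn1 : 1 ≤ n := by omega
    exact (ih h3).trans (hT0 T hT n hn1 (by push_cast at hl2; exact hl2))

end Pool.Agent.Lib.MP_fcf965_nt
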